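import Pool.Agent.H86.DQ.Main

/-!
# Counting
-/

set_option autoImplicit false

universe u v

open Cardinal

namespace Pool.Agent.H86.DQ

theorem card_defSet (w : Bool) (A : Set ZFSet.{u}) : #(DefSet w A) ≤ max ℵ₀ #A := by
  have h1 : ∀ X : DefSet w A, ∃ p : Fm × List A, ∀ a : A, (a : ZFSet.{u}) ∈ X.1 ↔
      Red.{u} (memOn A) (a :: p.2) p.1 := by
    intro X
    obtain ⟨-, b, φ, ψ, -, h⟩ := X.2
    exact ⟨(φ, b), h⟩
  choose f hf using h1
  have h2 : Function.Injective f := by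
    intro X Y h
    apply Subtype.ext
    apply ZFSet.ext
    intro z
    constructor
    · intro hz
      have h3 := (hf X ⟨z, X.2.1 z hz⟩).mp hz
      rw [h] at h3
      exact (hf Y ⟨z, X.2.1 z hz⟩).mpr h3
    · intro hz
      have h3 := (hf Y ⟨z, Y.2.1 z hz⟩).mp hz
      rw [← h] at h3
      exact (hf X ⟨z, Y.2.1 z hz⟩).mpr h3
  refine (mk_le_of_injective h2).trans ?_
  rw [mk_prod]
  have h4 : lift.{u + 1} #Fm ≤ max ℵ₀ #A := by
    refine le_trans ?_ (le_max_left _ _)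
    rw [lift_le_aleph0]
    exact mk_le_aleph0
  have h5 : lift.{0} #(List A) ≤ max ℵ₀ #A := by
    rw [lift_uzero]
    exact mk_list_le_max _
  exact (mul_le_mul' h4 h5).trans (mul_eq_self (le_max_left _ _)).le

theorem card_Lp (w : Bool) {κ : Cardinal.{u}} (hκ : ℵ₀ ≤ κ) (β : Ordinal.{u}) :
    β < (Order.succ κ).ord → #(Lp.{u} w β) ≤ lift.{u + 1} κ := by
  have h0 : ℵ₀ ≤ lift.{u + 1} κ := by
    rw [aleph0_le_lift]
    exact hκ
  induction β using Ordinal.limitRecOn with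
  | zero =>
    intro _
    rw [Lp_zero]
    simp
  | add_one β ih =>
    intro h
    rw [Lp_succ]
    refine (card_defSet w _).trans (max_le h0 (ih ?_))
    exact (Order.lt_add_one_iff.mpr le_rfl).trans h
  | limit β hβ ih =>
    intro h
    rw [Lp_limit w hβ]
    have h1 : (⋃ (γ : Ordinal.{u}) (_ : γ < β), Lp.{u} w γ) = ⋃ γ : Set.Iio β, Lp.{u} w γ := by
      ext x
      simp
    rw [h1]
    refine (mk_iUnion_le _).trans ?_
    have h2 : #(Set.Iio β) ≤ lift.{u + 1} κ := by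
      rw [Cardinal.mk_Iio_ordinal, lift_le]
      rwa [Cardinal.lt_ord, Order.lt_succ_iff] at h
    exact (mul_le_mul' h2 (ciSup_le' fun γ : Set.Iio β => ih γ.1 γ.2 (lt_trans γ.2 h))).trans
      (mul_eq_self h0).le

/-- the set `ω` -/
noncomputable def om : ZFSet.{u} := ZFSet.range (num : ℕ → ZFSet.{u})

theorem mem_om (x : ZFSet.{u}) : x ∈ om ↔ ∃ n, num n = x := by
  unfold om
  rw [ZFSet.mem_range]

theorem mem_num (n : ℕ) : ∀ x : ZFSet.{u}, x ∈ num n → ∃ m < n, x = num m := by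
  induction n with
  | zero =>
    intro x hx
    exact absurd hx (ZFSet.notMem_empty x)
  | succ n ih =>
    intro x hx
    rw [num, ZFSet.mem_insert_iff] at hx
    rcases hx with rfl | hx
    · exact ⟨n, Nat.lt_succ_self n, rfl⟩
    · obtain ⟨m, hm, h⟩ := ih x hx
      exact ⟨m, hm.trans (Nat.lt_succ_self n), h⟩

theorem num_mem {m n : ℕ} (h : m < n) : (num m : ZFSet.{u}) ∈ num n := by
  induction h with
  | refl => exact ZFSet.mem_insert _ _
  | step _ ih => exact ZFSet.mem_insert_of_mem _ ih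

theorem num_inj {m n : ℕ} (h : (num m : ZFSet.{u}) = num n) : m = n := by
  rcases lt_trichotomy m n with h1 | h1 | h1
  · have h2 := num_mem.{u} h1
    rw [h] at h2
    exact absurd h2 (ZFSet.mem_irrefl _)
  · exact h1
  · have h2 := num_mem.{u} h1
    rw [h] at h2
    exact absurd h2 (ZFSet.mem_irrefl _)

theorem om_trans : ∀ x ∈ om.{u}, ∀ y ∈ x, y ∈ om.{u} := by
  intro x hx y hy
  obtain ⟨n, rfl⟩ := (mem_om x).mp hx
  obtain ⟨m, _, rfl⟩ := mem_num n y hy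
  exact (mem_om _).mpr ⟨m, rfl⟩

theorem card_om : Cardinal.mk om.{u} ≤ ℵ₀ := by
  rw [Cardinal.mk_le_aleph0_iff]
  have h1 : Function.Surjective (fun n : ℕ => (⟨num n, (mem_om _).mpr ⟨n, rfl⟩⟩ : om.{u})) := by
    rintro ⟨x, hx⟩
    obtain ⟨n, hn⟩ := (mem_om x).mp hx
    exact ⟨n, Subtype.ext hn⟩
  exact h1.countable

/-- every real in the model appears before stage `ω₂` -/
theorem real_stage (w : Bool) {x : ZFSet.{u}} (hx : IsReal x) (hC : x ∈ C w) :
    ∃ β < (ℵ_ 2 : Cardinal.{u}).ord, x ∈ Lp w β := by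
  have h1 := subset_stage w (κ := ℵ₁) le_rfl om_trans (card_om.trans ?_) hC (fun y hy => ?_)
  · have h2 : Order.succ (ℵ₁ : Cardinal.{u}) = ℵ_ 2 := by
      rw [succ_aleph, one_add_one_eq_two]
    rwa [h2] at h1
  · rw [aleph0_le_lift]
    exact aleph0_lt_aleph_one.le
  · obtain ⟨n, rfl⟩ := hx y hy
    exact (mem_om _).mpr ⟨n, rfl⟩

theorem card_reals (w : Bool) : #{x : ZFSet.{u} | IsReal x ∧ x ∈ C w} ≤ ℵ_ 2 := by
  have h2 : Order.succ (ℵ₁ : Cardinal.{u}) = ℵ_ 2 := by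
    rw [succ_aleph, one_add_one_eq_two]
  have h3 : {x : ZFSet.{u} | IsReal x ∧ x ∈ C w} ⊆
      ⋃ β : Set.Iio (ℵ_ 2 : Cardinal.{u}).ord, Lp.{u} w β := by
    rintro x ⟨hx, hC⟩
    obtain ⟨β, hβ, h⟩ := real_stage w hx hC
    exact Set.mem_iUnion.mpr ⟨⟨β, hβ⟩, h⟩
  refine (mk_le_mk_of_subset h3).trans ((mk_iUnion_le _).trans ?_)
  have h4 : #(Set.Iio (ℵ_ 2 : Cardinal.{u}).ord) = ℵ_ 2 := by
    rw [Cardinal.mk_Iio_ordinal, card_ord]
    simp
  rw [h4]
  have h5 : (ℵ₀ : Cardinal.{u + 1}) ≤ ℵ_ 2 := aleph0_le_aleph 2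
  refine (mul_le_mul' le_rfl (ciSup_le' (a := ℵ_ 2) fun β => ?_)).trans (mul_eq_self h5).le
  have h6 := card_Lp w (κ := ℵ₁) aleph0_lt_aleph_one.le β.1 (by rw [h2]; exact β.2)
  refine h6.trans ?_
  have h7 : lift.{u + 1} (ℵ₁ : Cardinal.{u}) ≤ lift.{u + 1} (ℵ_ 2 : Cardinal.{u}) := by
    rw [lift_le, ← h2]
    exact Order.le_succ _
  simp

theorem continuum_le_reals : (𝔠 : Cardinal.{u + 1}) ≤ #{x : ZFSet.{u} | IsReal x} := by
  have h1 : lift.{u + 1} #(Set ℕ) = 𝔠 := by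
    rw [mk_set_nat, lift_continuum]
  rw [← h1]
  have h2 : lift.{u + 1} #(Set ℕ) ≤ lift.{0} #{x : ZFSet.{u} | IsReal x} := by
    refine lift_mk_le_lift_mk_of_injective
      (f := fun A : Set ℕ => (⟨ZFSet.range (fun n : A => (num n.1 : ZFSet.{u})), ?_⟩ :
        {x : ZFSet.{u} | IsReal x})) ?_
    · intro y hy
      rw [ZFSet.mem_range] at hy
      obtain ⟨n, rfl⟩ := hy
      exact ⟨n.1, rfl⟩
    · intro A B hAB
      have h3 : ZFSet.range (fun n : A => (num n.1 : ZFSet.{u})) =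
          ZFSet.range (fun n : B => (num n.1 : ZFSet.{u})) := congrArg Subtype.val hAB
      have h4 : ∀ (A : Set ℕ) (n : ℕ), (num n : ZFSet.{u}) ∈
          ZFSet.range (fun n : A => (num n.1 : ZFSet.{u})) ↔ n ∈ A := by
        intro A n
        rw [ZFSet.mem_range]
        constructor
        · rintro ⟨m, hm⟩
          rw [← num_inj hm]
          exact m.2
        · intro h
          exact ⟨⟨n, h⟩, rfl⟩
      ext n
      rw [← h4 A, ← h4 B, h3]
  rwa [lift_uzero] at h2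

end Pool.Agent.H86.DQ
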