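import Pool.Agent.H86.DQ.Hier

/-!
# Collapsing functions
-/

set_option autoImplicit false

universe u v

open Cardinal

namespace Pool.Agent.H86.DQ

/-- the collapse relative to `H` -/
noncomputable def col (H : Set ZFSet.{u}) : ZFSet.{u} → ZFSet.{u} :=
  ZFSet.mem_wf.fix fun X ih => ZFSet.range
    (fun a : {a : X // (a : ZFSet.{u}) ∈ H} => ih a.1.1 a.1.2)

theorem mem_col (H : Set ZFSet.{u}) (X y : ZFSet.{u}) :
    y ∈ col H X ↔ ∃ a ∈ X, a ∈ H ∧ y = col H a := by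
  unfold col
  rw [WellFounded.fix_eq, ZFSet.mem_range]
  constructor
  · rintro ⟨a, rfl⟩
    exact ⟨a.1.1, a.1.2, a.2, rfl⟩
  · rintro ⟨a, h1, h2, rfl⟩
    exact ⟨⟨⟨a, h1⟩, h2⟩, rfl⟩

/-- the collapse is the identity on transitive subsets of `H` -/
theorem col_id {H : Set ZFSet.{u}} {t : ZFSet.{u}} (ht : ∀ x ∈ t, ∀ y ∈ x, y ∈ t)
    (hH : ∀ x ∈ t, x ∈ H) (x : ZFSet.{u}) (hx : ∀ y ∈ x, y ∈ t) : col H x = x := by
  have h1 : ∀ x : ZFSet.{u}, x ∈ t → col H x = x := by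
    intro x
    induction x using ZFSet.inductionOn with
    | h x ih =>
      intro hx
      ext y
      rw [mem_col]
      constructor
      · rintro ⟨a, ha, _, rfl⟩
        rw [ih a ha (ht x hx a ha)]
        exact ha
      · intro hy
        exact ⟨y, hy, hH y (ht x hx y hy), (ih y hy (ht x hx y hy)).symm⟩
  ext y
  rw [mem_col]
  constructor
  · rintro ⟨a, ha, _, rfl⟩
    rw [h1 a (hx a ha)]
    exact ha
  · intro hy
    exact ⟨y, hy, hH y (hx y hy), (h1 y (hx y hy)).symm⟩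

/-- the collapse of a class of ordinals -/
noncomputable def rk (H : Set Ordinal.{u}) : Ordinal.{u} → Ordinal.{u} :=
  WellFounded.fix (r := fun a b : Ordinal.{u} => a < b) wellFounded_lt fun γ ih =>
    ⨆ δ : {δ : Set.Iio γ // (δ : Ordinal.{u}) ∈ H}, (ih δ.1.1 δ.1.2 + 1)

theorem rk_eq (H : Set Ordinal.{u}) (γ : Ordinal.{u}) :
    rk H γ = ⨆ δ : {δ : Set.Iio γ // (δ : Ordinal.{u}) ∈ H}, (rk H δ.1.1 + 1) := by
  unfold rk
  rw [WellFounded.fix_eq]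

variable {H : Set Ordinal.{u}}

theorem lt_rk_iff {ξ γ : Ordinal.{u}} : ξ < rk H γ ↔ ∃ δ < γ, δ ∈ H ∧ ξ ≤ rk H δ := by
  rw [rk_eq, Ordinal.lt_iSup_iff]
  constructor
  · rintro ⟨δ, hδ⟩
    exact ⟨δ.1.1, δ.1.2, δ.2, Order.lt_add_one_iff.mp hδ⟩
  · rintro ⟨δ, h1, h2, h3⟩
    exact ⟨⟨⟨δ, h1⟩, h2⟩, Order.lt_add_one_iff.mpr h3⟩

theorem rk_lt {δ γ : Ordinal.{u}} (h : δ < γ) (hδ : δ ∈ H) : rk H δ < rk H γ :=
  lt_rk_iff.mpr ⟨δ, h, hδ, le_rfl⟩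

theorem rk_surj (γ : Ordinal.{u}) : ∀ ξ < rk H γ, ∃ δ < γ, δ ∈ H ∧ ξ = rk H δ := by
  induction γ using WellFoundedLT.induction with
  | ind γ ih =>
    intro ξ hξ
    obtain ⟨δ, h1, h2, h3⟩ := lt_rk_iff.mp hξ
    rcases h3.lt_or_eq with h4 | h4
    · obtain ⟨ε, h5, h6, h7⟩ := ih δ h1 ξ h4
      exact ⟨ε, h5.trans h1, h6, h7⟩
    · exact ⟨δ, h1, h2, h4⟩

theorem rk_succ {γ : Ordinal.{u}} (hγ : γ ∈ H) : rk H (γ + 1) = rk H γ + 1 := by
  apply le_antisymm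
  · by_contra hc
    rw [not_le] at hc
    obtain ⟨δ, h1, h2, h3⟩ := lt_rk_iff.mp hc
    rcases (Order.lt_add_one_iff.mp h1).lt_or_eq with h4 | rfl
    · exact absurd h3 (not_le.mpr ((rk_lt h4 h2).trans (Order.lt_add_one_iff.mpr le_rfl)))
    · exact absurd h3 (not_le.mpr (Order.lt_add_one_iff.mpr le_rfl))
  · rw [Order.add_one_le_iff]
    exact rk_lt (Order.lt_add_one_iff.mpr le_rfl) hγ

theorem rk_zero : rk H 0 = 0 := by
  by_contra hc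
  obtain ⟨δ, h1, _⟩ := lt_rk_iff.mp (pos_iff_ne_zero.mpr hc)
  exact absurd h1 not_lt_zero

theorem rk_limit {γ : Ordinal.{u}} (hγ : Order.IsSuccLimit γ) (h0 : 0 ∈ H)
    (hs : ∀ δ ∈ H, δ + 1 ∈ H) : Order.IsSuccLimit (rk H γ) := by
  have h1 : 0 < γ := pos_iff_ne_zero.mpr (fun h => by
    subst h
    exact hγ.1 isMin_bot)
  rw [Order.isSuccLimit_iff]
  constructor
  · intro h
    have h2 := rk_lt h1 h0
    exact absurd (h h2.le) (not_le.mpr h2)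
  · refine Order.isSuccPrelimit_of_succ_lt fun ξ hξ => ?_
    obtain ⟨δ, h2, h3, rfl⟩ := rk_surj γ ξ hξ
    rw [Order.succ_eq_add_one, ← rk_succ h3]
    exact rk_lt (hγ.add_one_lt h2) (hs δ h3)

theorem rk_lt_ord {κ : Cardinal.{u}} (hH : #H ≤ lift.{u + 1} κ) (γ : Ordinal.{u}) :
    rk H γ < (Order.succ κ).ord := by
  rw [Cardinal.lt_ord, Order.lt_succ_iff]
  have h1 : #(Set.Iio (rk H γ)) ≤ #H := by
    choose f hf1 hf2 hf3 using rk_surj (H := H) γ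
    refine mk_le_of_injective (f := fun x : Set.Iio (rk H γ) => (⟨f x.1 x.2, hf2 x.1 x.2⟩ : H)) ?_
    intro x y hxy
    have h2 : f x.1 x.2 = f y.1 y.2 := congrArg Subtype.val hxy
    apply Subtype.ext
    rw [hf3 x.1 x.2, hf3 y.1 y.2, h2]
  rw [Cardinal.mk_Iio_ordinal] at h1
  have h3 := h1.trans hH
  rwa [lift_le] at h3

end Pool.Agent.H86.DQ
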