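import Mathlib

/-!
# The inner models `C(Δ(L(Q₁)))` and `C(Δ(L(Q₁, W)))`: definitions

Everything is done inside the universe of sets `ZFSet.{u}`; a structure (set sized) is a structure
whose sorts are types in `Type u`.
-/

set_option autoImplicit false

universe u v

namespace Pool.Agent.H86.DQ

/-- Formulas of many-sorted `L(Q₁, W)`.  The variable `(s, i)` is the `i`-th variable of sort `s`.
Sort `0` is the sort of the base vocabulary, which has one binary relation symbol and constant
symbols `c_0, c_1, ...`; there are further relation symbols `R_r` of all arities. -/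
inductive Fm : Type
  /-- `x = y` for the variables `x = (s, i)`, `y = (s, j)` of sort `s` -/
  | eq (s i j : ℕ)
  /-- `x ε y` for the variables `x = (0, i)`, `y = (0, j)` of sort `0` -/
  | mem (i j : ℕ)
  /-- `x = c_k` for the variable `x = (0, i)` of sort `0` -/
  | cst (i k : ℕ)
  /-- `R_r(x_1, ..., x_n)` for a list of variables -/
  | rel (r : ℕ) (l : List (ℕ × ℕ))
  | neg (φ : Fm)
  | and (φ ψ : Fm)
  /-- there is `x = (s, i)` with `φ` -/
  | ex (s i : ℕ) (φ : Fm)
  /-- `Q₁ x φ` for `x = (s, i)` -/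
  | q (s i : ℕ) (φ : Fm)
  /-- `W x y φ` for `x = (s, i)`, `y = (s, j)` -/
  | wf (s i j : ℕ) (φ : Fm)

/-- `InL true φ` always; `InL false φ`: the quantifier `W` does not occur in `φ`. -/
def Fm.InL (w : Bool) : Fm → Prop
  | .eq _ _ _ => True
  | .mem _ _ => True
  | .cst _ _ => True
  | .rel _ _ => True
  | .neg φ => φ.InL w
  | .and φ ψ => φ.InL w ∧ ψ.InL w
  | .ex _ _ φ => φ.InL w
  | .q _ _ φ => φ.InL w
  | .wf _ _ _ φ => w = true ∧ φ.InL w

/-- A many-sorted structure: nonempty sorts `D s`, a binary relation and finitely many constants on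
the sort `D 0`, and further relations (sets of finite sequences) `R r`. -/
structure Str : Type (u + 1) where
  D : ℕ → Type u
  ne : ∀ s, Nonempty (D s)
  e : D 0 → D 0 → Prop
  c : List (D 0)
  R : ℕ → List (Σ s, D s) → Prop

/-- assignments -/
abbrev Str.Asg (N : Str.{u}) : Type u := ∀ s, ℕ → N.D s

/-- the assignment `v` changed at the variable `(s, i)` to `a` -/
def Str.upd (N : Str.{u}) (v : N.Asg) (s i : ℕ) (a : N.D s) : N.Asg :=
  Function.update v s (Function.update (v s) i a)

/-- satisfaction -/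
def Str.Sat (N : Str.{u}) : Fm → N.Asg → Prop
  | .eq s i j, v => v s i = v s j
  | .mem i j, v => N.e (v 0 i) (v 0 j)
  | .cst i k, v => N.c[k]? = some (v 0 i)
  | .rel r l, v => N.R r (l.map fun p => ⟨p.1, v p.1 p.2⟩)
  | .neg φ, v => ¬ N.Sat φ v
  | .and φ ψ, v => N.Sat φ v ∧ N.Sat ψ v
  | .ex s i φ, v => ∃ a, N.Sat φ (N.upd v s i a)
  | .q s i φ, v => ¬ {a | N.Sat φ (N.upd v s i a)}.Countable
  | .wf s i j φ, v => WellFounded fun a b => N.Sat φ (N.upd (N.upd v s i a) s j b)

/-- `N` is a model of (the universal closure of) `φ` -/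
def Str.Models (N : Str.{u}) (φ : Fm) : Prop := ∀ v, N.Sat φ v

/-- the structure `(A, e, c)` for the base vocabulary (constants `c_k` named by the entries of the
list `c`) is, up to isomorphism, the reduct of a set sized model of `φ` -/
def Red {A : Type v} (e : A → A → Prop) (c : List A) (φ : Fm) : Prop :=
  ∃ (N : Str.{u}) (f : A ≃ N.D 0),
    (∀ x y, N.e (f x) (f y) ↔ e x y) ∧ N.c = c.map f ∧ N.Models φ

/-- `(φ, ψ)` is a sentence of `Δ(L(Q₁))` (`w = false`) or `Δ(L(Q₁, W))` (`w = true`) for the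
vocabulary with one binary relation symbol and `n` constant symbols -/
def DeltaPair (w : Bool) (n : ℕ) (φ ψ : Fm) : Prop :=
  φ.InL w ∧ ψ.InL w ∧ ∀ (A : Type u) (e : A → A → Prop) (c : List A), c.length = n →
    (Red.{u} e c φ ↔ ¬ Red.{u} e c ψ)

/-- the membership relation on a class of sets -/
def memOn (A : Set ZFSet.{u}) (x y : A) : Prop := (x : ZFSet.{u}) ∈ (y : ZFSet.{u})

/-- the subsets of `A` which are definable over `(A, ∈)` by a formula of `Δ(L(Q₁))` or
`Δ(L(Q₁, W))` with finitely many parameters `b` from `A` -/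
def DefSet (w : Bool) (A : Set ZFSet.{u}) : Set ZFSet.{u} :=
  {X | (∀ a ∈ X, a ∈ A) ∧ ∃ (b : List A) (φ ψ : Fm), DeltaPair.{u} w (b.length + 1) φ ψ ∧
    ∀ a : A, (a : ZFSet.{u}) ∈ X ↔ Red.{u} (memOn A) (a :: b) φ}

/-- the hierarchy `L'_α` -/
noncomputable def Lp (w : Bool) (α : Ordinal.{u}) : Set ZFSet.{u} :=
  Ordinal.limitRecOn α ∅ (fun _ A => DefSet w A) (fun l _ A => ⋃ (β : Ordinal.{u}) (h : β < l), A β h)

/-- the inner model `C(Δ(L(Q₁)))` (`w = false`) or `C(Δ(L(Q₁, W)))` (`w = true`) -/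
def C (w : Bool) : Set ZFSet.{u} := {x | ∃ α, x ∈ Lp w α}

/-- the von Neumann numeral `n` -/
def num : ℕ → ZFSet.{u}
  | 0 => ∅
  | n + 1 => insert (num n) (num n)

/-- `x` is a subset of `ω` -/
def IsReal (x : ZFSet.{u}) : Prop := ∀ y ∈ x, ∃ n, y = num n

end Pool.Agent.H86.DQ
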