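import Pool.Agent.H86.DQ.RedL

/-!
# Basic properties of the hierarchy
-/

set_option autoImplicit false

universe u v

open Cardinal

namespace Pool.Agent.H86.DQ

/-- the formula saying that `c_0 ε c_1` -/
def phi0 : Fm := .ex 0 0 (.ex 0 1 (.and (.and (.cst 0 0) (.cst 1 1)) (.mem 0 1)))

theorem sat_phi0 (N : Str.{u}) {p q : N.D 0} (hc : N.c = [p, q]) (v : N.Asg) :
    N.Sat phi0 v ↔ N.e p q := by
  have h1 : ∀ a b : N.D 0, N.upd (N.upd v 0 0 a) 0 1 b 0 0 = a := fun a b => by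
    simp [Str.upd, Function.update_of_ne]
  have h2 : ∀ a b : N.D 0, N.upd (N.upd v 0 0 a) 0 1 b 0 1 = b := fun a b => by
    simp [Str.upd]
  simp only [phi0, Str.Sat, h1, h2, hc]
  constructor
  · rintro ⟨a, b, ⟨ha, hb⟩, hab⟩
    simp at ha hb
    subst ha hb
    exact hab
  · intro h
    exact ⟨p, q, ⟨by simp, by simp⟩, h⟩

theorem red_of_sat {A : Type v} [Small.{u} A] {e : A → A → Prop} {c : List A} {φ : Fm} (p : A)
    (h : ∀ N : Str.{u}, ∀ f : A ≃ N.D 0, (∀ x y, N.e (f x) (f y) ↔ e x y) → N.c = c.map f →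
      N.Models φ) : Red.{u} e c φ := by
  let g : A ≃ Shrink.{u} A := equivShrink A
  let N : Str.{u} :=
    { D := fun _ => Shrink.{u} A
      ne := fun _ => ⟨g p⟩
      e := fun x y => e (g.symm x) (g.symm y)
      c := c.map g
      R := fun _ _ => False }
  have hN : ∀ x y, N.e (g x) (g y) ↔ e x y := fun x y => by
    change e (g.symm (g x)) (g.symm (g y)) ↔ e x y
    rw [Equiv.symm_apply_apply, Equiv.symm_apply_apply]
  exact ⟨N, g, hN, rfl, h N g hN rfl⟩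

theorem red_phi0 {A : Type v} [Small.{u} A] (e : A → A → Prop) (p q : A) :
    Red.{u} e [p, q] phi0 ↔ e p q := by
  constructor
  · rintro ⟨N, f, he, hc, hN⟩
    have h1 := hN (fun s _ => Classical.choice (N.ne s))
    rw [sat_phi0 N (p := f p) (q := f q) hc, he] at h1
    exact h1
  · intro h
    refine red_of_sat p fun N f he hc v => ?_
    rw [sat_phi0 N (p := f p) (q := f q) hc, he]
    exact h

theorem red_neg_phi0 {A : Type v} [Small.{u} A] (e : A → A → Prop) (p q : A) :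
    Red.{u} e [p, q] (.neg phi0) ↔ ¬ e p q := by
  constructor
  · rintro ⟨N, f, he, hc, hN⟩ h
    refine hN (fun s _ => Classical.choice (N.ne s)) ?_
    rw [sat_phi0 N (p := f p) (q := f q) hc, he]
    exact h
  · intro h
    refine red_of_sat p fun N f he hc v h' => h ?_
    rw [sat_phi0 N (p := f p) (q := f q) hc, he] at h'
    exact h'

theorem delta_phi0 (w : Bool) : DeltaPair.{u} w 2 phi0 (.neg phi0) := by
  refine ⟨?_, ?_, ?_⟩
  · simp [phi0, Fm.InL]
  · simp [phi0, Fm.InL]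
  · intro A e c hc
    obtain ⟨p, q, rfl⟩ := List.length_eq_two.mp hc
    rw [red_phi0, red_neg_phi0, not_not]

theorem mem_defSet_of_mem {w : Bool} {A : Set ZFSet.{u}} [Small.{u} A]
    (hA : ∀ x ∈ A, ∀ y ∈ x, y ∈ A) {x : ZFSet.{u}} (hx : x ∈ A) : x ∈ DefSet w A := by
  refine ⟨hA x hx, [⟨x, hx⟩], phi0, .neg phi0, delta_phi0 w, fun a => ?_⟩
  rw [red_phi0]
  exact Iff.rfl

theorem small_defSet {w : Bool} {A : Set ZFSet.{u}} [Small.{u} A] : Small.{u} (DefSet w A) := by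
  refine small_of_injective (β := Set A) (f := fun X => {a : A | (a : ZFSet.{u}) ∈ X.1}) ?_
  intro X Y h
  have h' : {a : A | (a : ZFSet.{u}) ∈ X.1} = {a : A | (a : ZFSet.{u}) ∈ Y.1} := h
  apply Subtype.ext
  apply ZFSet.ext
  intro z
  exact ⟨fun hz => (Set.ext_iff.mp h' ⟨z, X.2.1 z hz⟩).mp hz,
    fun hz => (Set.ext_iff.mp h' ⟨z, Y.2.1 z hz⟩).mpr hz⟩

variable (w : Bool)

theorem Lp_zero : Lp.{u} w 0 = ∅ := Ordinal.limitRecOn_zero _ _ _

theorem Lp_succ (α : Ordinal.{u}) : Lp.{u} w (α + 1) = DefSet w (Lp w α) :=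
  Ordinal.limitRecOn_add_one _ _ _ _

theorem Lp_limit {α : Ordinal.{u}} (h : Order.IsSuccLimit α) :
    Lp.{u} w α = ⋃ (β : Ordinal.{u}) (_ : β < α), Lp w β := Ordinal.limitRecOn_limit _ _ _ _ h

theorem mem_Lp_limit {α : Ordinal.{u}} (h : Order.IsSuccLimit α) {x : ZFSet.{u}} :
    x ∈ Lp.{u} w α ↔ ∃ β < α, x ∈ Lp w β := by
  rw [Lp_limit w h]
  simp

instance small_Lp (α : Ordinal.{u}) : Small.{u} (Lp.{u} w α) := by
  induction α using Ordinal.limitRecOn with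
  | zero => rw [Lp_zero]; infer_instance
  | add_one α ih => rw [Lp_succ]; exact small_defSet
  | limit α hα ih =>
    rw [Lp_limit w hα]
    have h1 : (⋃ (β : Ordinal.{u}) (_ : β < α), Lp.{u} w β) = ⋃ β : Set.Iio α, Lp.{u} w β := by
      ext x
      simp
    rw [h1]
    have : ∀ β : Set.Iio α, Small.{u} (Lp.{u} w β) := fun β => ih β β.2
    infer_instance

theorem Lp_trans_mono (α : Ordinal.{u}) : (∀ x ∈ Lp.{u} w α, ∀ y ∈ x, y ∈ Lp.{u} w α) ∧
    ∀ β ≤ α, Lp.{u} w β ⊆ Lp.{u} w α := by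
  induction α using Ordinal.limitRecOn with
  | zero =>
    refine ⟨fun x hx => ?_, fun β hβ => ?_⟩
    · rw [Lp_zero] at hx
      exact absurd hx (Set.notMem_empty x)
    · rw [le_antisymm hβ zero_le]
  | add_one α ih =>
    have h1 : Lp.{u} w α ⊆ Lp.{u} w (α + 1) := by
      intro x hx
      rw [Lp_succ]
      exact mem_defSet_of_mem ih.1 hx
    refine ⟨fun x hx y hy => ?_, fun β hβ => ?_⟩
    · rw [Lp_succ] at hx
      exact h1 (hx.1 y hy)
    · rcases hβ.lt_or_eq with h | rfl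
      · exact (ih.2 β (Order.lt_add_one_iff.mp h)).trans h1
      · exact subset_rfl
  | limit α hα ih =>
    refine ⟨fun x hx y hy => ?_, fun β hβ => ?_⟩
    · rw [mem_Lp_limit w hα] at hx ⊢
      obtain ⟨β, hβ, hx⟩ := hx
      exact ⟨β, hβ, (ih β hβ).1 x hx y hy⟩
    · rcases hβ.lt_or_eq with h | rfl
      · intro x hx
        rw [mem_Lp_limit w hα]
        exact ⟨β, h, hx⟩
      · exact subset_rfl

theorem Lp_trans {α : Ordinal.{u}} {x y : ZFSet.{u}} (hx : x ∈ Lp.{u} w α) (hy : y ∈ x) :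
    y ∈ Lp.{u} w α := (Lp_trans_mono w α).1 x hx y hy

theorem Lp_mono {α β : Ordinal.{u}} (h : β ≤ α) : Lp.{u} w β ⊆ Lp.{u} w α :=
  (Lp_trans_mono w α).2 β h

/-- the set of all members of `Lp α` with a given property -/
theorem exists_builder (α : Ordinal.{u}) (P : ZFSet.{u} → Prop) :
    ∃ X : ZFSet.{u}, ∀ a, a ∈ X ↔ a ∈ Lp.{u} w α ∧ P a := by
  refine ⟨ZFSet.range (fun x : {x : Lp.{u} w α // P x.1} => x.1.1), fun a => ?_⟩
  rw [ZFSet.mem_range]
  constructor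
  · rintro ⟨x, rfl⟩
    exact ⟨x.1.2, x.2⟩
  · rintro ⟨h1, h2⟩
    exact ⟨⟨⟨a, h1⟩, h2⟩, rfl⟩

end Pool.Agent.H86.DQ
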