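import Mathlib

/-!
# Closure of a set under a set-valued function of finite sequences
-/

set_option autoImplicit false

universe v w

open Cardinal

namespace Pool.Agent.H86.DQ

variable {X : Type v} (M : List X → Set X)

/-- `K` is closed under `M` -/
def Closed (K : Set X) : Prop := ∀ l : List X, (∀ a ∈ l, a ∈ K) → M l ⊆ K

/-- the closure of `S` under `M` -/
def Cl (S : Set X) : Set X := {x | ∀ K, S ⊆ K → Closed M K → x ∈ K}

variable {M}

theorem subset_Cl (S : Set X) : S ⊆ Cl M S := fun _ hx _ hK _ => hK hx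

theorem closed_Cl (S : Set X) : Closed M (Cl M S) := by
  intro l hl x hx K hS hK
  exact hK l (fun a ha => hl a ha K hS hK) hx

theorem Cl_min {S K : Set X} (h : S ⊆ K) (hK : Closed M K) : Cl M S ⊆ K := fun _ hx => hx K h hK

theorem Cl_mono {S T : Set X} (h : S ⊆ T) : Cl M S ⊆ Cl M T :=
  Cl_min (h.trans (subset_Cl T)) (closed_Cl T)

theorem exists_list (S : Set X) : ∀ l : List X, (∀ a ∈ l, ∃ t : List X, (∀ b ∈ t, b ∈ S) ∧
    a ∈ Cl M {b | b ∈ t}) → ∃ t : List X, (∀ b ∈ t, b ∈ S) ∧ ∀ a ∈ l, a ∈ Cl M {b | b ∈ t}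
  | [], _ => ⟨[], by simp, by simp⟩
  | x :: l, h => by
    obtain ⟨t1, h1, h1'⟩ := h x (by simp)
    obtain ⟨t2, h2, h2'⟩ := exists_list S l (fun a ha => h a (by simp [ha]))
    refine ⟨t1 ++ t2, ?_, ?_⟩
    · intro b hb
      rcases List.mem_append.mp hb with hb | hb
      exacts [h1 b hb, h2 b hb]
    · intro a ha
      rcases List.mem_cons.mp ha with rfl | ha
      · exact Cl_mono (fun b hb => List.mem_append.mpr (Or.inl hb)) h1'
      · exact Cl_mono (fun b hb => List.mem_append.mpr (Or.inr hb)) (h2' a ha)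

theorem mem_Cl_finite {S : Set X} {x : X} (hx : x ∈ Cl M S) :
    ∃ t : List X, (∀ b ∈ t, b ∈ S) ∧ x ∈ Cl M {b | b ∈ t} := by
  refine hx {x | ∃ t : List X, (∀ b ∈ t, b ∈ S) ∧ x ∈ Cl M {b | b ∈ t}} ?_ ?_
  · intro a ha
    exact ⟨[a], by simpa using ha, subset_Cl _ (by simp)⟩
  · intro l hl y hy
    obtain ⟨t, ht, ht'⟩ := exists_list S l hl
    exact ⟨t, ht, closed_Cl _ l ht' hy⟩

/-- the stages of the closure -/
def stage (M : List X → Set X) (S : Set X) : ℕ → Set X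
  | 0 => S
  | n + 1 => stage M S n ∪ ⋃ l : List (stage M S n), M (l.map Subtype.val)

theorem stage_mono (S : Set X) {m n : ℕ} (h : m ≤ n) : stage M S m ⊆ stage M S n := by
  induction h with
  | refl => exact subset_rfl
  | step _ ih => exact ih.trans Set.subset_union_left

theorem stage_list (S : Set X) (l : List X) (hl : ∀ a ∈ l, a ∈ ⋃ n, stage M S n) :
    ∃ n, ∀ a ∈ l, a ∈ stage M S n := by
  induction l with
  | nil => exact ⟨0, by simp⟩
  | cons x l ih =>
    obtain ⟨n, hn⟩ := ih (fun a ha => hl a (by simp [ha]))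
    obtain ⟨m, hm⟩ := Set.mem_iUnion.mp (hl x (by simp))
    refine ⟨max m n, ?_⟩
    intro a ha
    rcases List.mem_cons.mp ha with rfl | ha
    · exact stage_mono S (le_max_left _ _) hm
    · exact stage_mono S (le_max_right _ _) (hn a ha)

theorem Cl_subset_stage (S : Set X) : Cl M S ⊆ ⋃ n, stage M S n := by
  refine Cl_min (fun x hx => Set.mem_iUnion.mpr ⟨0, hx⟩) ?_
  intro l hl x hx
  obtain ⟨n, hn⟩ := stage_list S l hl
  refine Set.mem_iUnion.mpr ⟨n + 1, Or.inr (Set.mem_iUnion.mpr ⟨l.attachWith _ hn, ?_⟩)⟩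
  rwa [List.attachWith_map_subtype_val]

theorem card_iUnion_le_countable {X : Type v} {ι : Type w} [Countable ι] {κ : Cardinal.{v}}
    (hκ : ℵ₀ ≤ κ) {f : ι → Set X} (h : ∀ i, #(f i) ≤ κ) : #(⋃ i, f i) ≤ κ := by
  have h1 := mk_iUnion_le_lift f
  have h2 : lift.{v} #ι ≤ lift.{w} κ := by
    have h3 : lift.{v} #ι ≤ ℵ₀ := by
      rw [lift_le_aleph0]
      exact mk_le_aleph0
    refine h3.trans ?_
    rw [aleph0_le_lift]
    exact hκ
  have h4 : ⨆ i, lift.{w} #(f i) ≤ lift.{w} κ := ciSup_le' fun i => lift_le.mpr (h i)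
  have h5 := h1.trans (mul_le_mul' h2 h4)
  rw [mul_eq_self (by rw [aleph0_le_lift]; exact hκ), lift_le] at h5
  exact h5

theorem card_Cl_le {κ : Cardinal.{v}} (hκ : ℵ₀ ≤ κ) (hM : ∀ l, #(M l) ≤ κ) {S : Set X}
    (hS : #S ≤ κ) : #(Cl M S) ≤ κ := by
  have h1 : ∀ n, #(stage M S n) ≤ κ := by
    intro n
    induction n with
    | zero => exact hS
    | succ n ih =>
      refine (mk_union_le _ _).trans ?_
      refine add_le_of_le hκ ih ?_
      refine (mk_iUnion_le _).trans ?_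
      have h2 : #(List (stage M S n)) ≤ κ := (mk_list_le_max _).trans (max_le hκ ih)
      refine (mul_le_mul' h2 (ciSup_le' fun l => hM _)).trans ?_
      exact (mul_eq_self hκ).le
  exact (mk_le_mk_of_subset (Cl_subset_stage S)).trans (card_iUnion_le_countable hκ h1)

/-- the two-sorted form -/
theorem hull {X Y : Type v} {κ : Cardinal.{v}} (hκ : ℵ₀ ≤ κ)
    (M₁ : Y → List X → List X → Set X) (M₀ : Y → List X → List X → Set Y)
    (h₁ : ∀ y c l, #(M₁ y c l) ≤ κ) (h₀ : ∀ y c l, #(M₀ y c l) ≤ κ)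
    (S₁ : Set X) (S₀ : Set Y) (hS₁ : #S₁ ≤ κ) (hS₀ : #S₀ ≤ κ) :
    ∃ (H₁ : Set X) (H₀ : Set Y), S₁ ⊆ H₁ ∧ S₀ ⊆ H₀ ∧ #H₁ ≤ κ ∧ #H₀ ≤ κ ∧
      ∀ y ∈ H₀, ∀ c l : List X, (∀ a ∈ c, a ∈ H₁) → (∀ a ∈ l, a ∈ H₁) →
        M₁ y c l ⊆ H₁ ∧ M₀ y c l ⊆ H₀ := by
  classical
  let D : Y → List X → ℕ → Set (Y ⊕ X) := fun y xs k =>
    Sum.inr '' M₁ y (xs.take k) (xs.drop k) ∪ Sum.inl '' M₀ y (xs.take k) (xs.drop k)
  let M : List (Y ⊕ X) → Set (Y ⊕ X) := fun L =>
    match L.filterMap Sum.getLeft? with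
    | [] => ∅
    | y :: _ => ⋃ k : ℕ, D y (L.filterMap Sum.getRight?) k
  have hD : ∀ y xs k, #(D y xs k) ≤ κ := fun y xs k =>
    (mk_union_le _ _).trans (add_le_of_le hκ (mk_image_le.trans (h₁ _ _ _))
      (mk_image_le.trans (h₀ _ _ _)))
  have hM : ∀ L, #(M L) ≤ κ := by
    intro L
    change #(match L.filterMap Sum.getLeft? with
      | [] => (∅ : Set (Y ⊕ X))
      | y :: _ => ⋃ k : ℕ, D y (L.filterMap Sum.getRight?) k : Set (Y ⊕ X)) ≤ κ
    split
    · simp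
    · exact card_iUnion_le_countable hκ (hD _ _)
  have hS : #(Sum.inl '' S₀ ∪ Sum.inr '' S₁ : Set (Y ⊕ X)) ≤ κ :=
    (mk_union_le _ _).trans (add_le_of_le hκ (mk_image_le.trans hS₀) (mk_image_le.trans hS₁))
  let K : Set (Y ⊕ X) := Cl M (Sum.inl '' S₀ ∪ Sum.inr '' S₁)
  have hK : #K ≤ κ := card_Cl_le hκ hM hS
  have hKc : Closed M K := closed_Cl _
  refine ⟨{x | Sum.inr x ∈ K}, {y | Sum.inl y ∈ K}, ?_, ?_, ?_, ?_, ?_⟩
  · exact fun x hx => subset_Cl _ (Or.inr ⟨x, hx, rfl⟩)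
  · exact fun x hx => subset_Cl _ (Or.inl ⟨x, hx, rfl⟩)
  · refine le_trans ?_ hK
    exact mk_le_of_injective (f := fun x : {x | Sum.inr x ∈ K} => (⟨Sum.inr x.1, x.2⟩ : K))
      (fun a b h => Subtype.ext (Sum.inr_injective (congrArg Subtype.val h)))
  · refine le_trans ?_ hK
    exact mk_le_of_injective (f := fun x : {y | Sum.inl y ∈ K} => (⟨Sum.inl x.1, x.2⟩ : K))
      (fun a b h => Subtype.ext (Sum.inl_injective (congrArg Subtype.val h)))
  · intro y hy c l hc hl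
    have e1 : (Sum.inl y :: (c ++ l).map Sum.inr : List (Y ⊕ X)).filterMap Sum.getLeft? = [y] := by
      rw [List.filterMap_cons]
      simp [List.filterMap_map]
    have e2 : (Sum.inl y :: (c ++ l).map Sum.inr : List (Y ⊕ X)).filterMap Sum.getRight? =
        c ++ l := by
      rw [List.filterMap_cons]
      simp [List.filterMap_map]
    have h3 : M (Sum.inl y :: (c ++ l).map Sum.inr) ⊆ K := by
      refine hKc (Sum.inl y :: (c ++ l).map Sum.inr) ?_
      intro a ha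
      rcases List.mem_cons.mp ha with rfl | ha
      · exact hy
      · obtain ⟨b, hb, rfl⟩ := List.mem_map.mp ha
        rcases List.mem_append.mp hb with hb | hb
        exacts [hc b hb, hl b hb]
    have h4 : D y (c ++ l) c.length ⊆ K := by
      refine subset_trans ?_ h3
      have h5 : M (Sum.inl y :: (c ++ l).map Sum.inr) = ⋃ k : ℕ, D y (c ++ l) k := by
        change (match (Sum.inl y :: (c ++ l).map Sum.inr : List (Y ⊕ X)).filterMap Sum.getLeft? with
          | [] => (∅ : Set (Y ⊕ X))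
          | y' :: _ => ⋃ k : ℕ, D y' ((Sum.inl y :: (c ++ l).map Sum.inr :
            List (Y ⊕ X)).filterMap Sum.getRight?) k : Set (Y ⊕ X)) = _
        rw [e1, e2]
      rw [h5]
      exact Set.subset_iUnion (D y (c ++ l)) c.length
    have h6 : D y (c ++ l) c.length = Sum.inr '' M₁ y c l ∪ Sum.inl '' M₀ y c l := by
      change Sum.inr '' M₁ y ((c ++ l).take c.length) ((c ++ l).drop c.length) ∪
        Sum.inl '' M₀ y ((c ++ l).take c.length) ((c ++ l).drop c.length) = _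
      simp
    rw [h6] at h4
    exact ⟨fun x hx => h4 (Or.inl ⟨x, hx, rfl⟩), fun x hx => h4 (Or.inr ⟨x, hx, rfl⟩)⟩

end Pool.Agent.H86.DQ
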