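import Pool.Agent.H86.DQ.Hier

/-!
# The closure properties of the hull
-/

set_option autoImplicit false

universe u v

open Cardinal

namespace Pool.Agent.H86.DQ

/-- the intersection of `H` with a level -/
def Lv (w : Bool) (H : Set ZFSet.{u}) (γ : Ordinal.{u}) : Set ZFSet.{u} := {a | a ∈ H ∧ a ∈ Lp w γ}

/-- the closure properties of the hull `(H₁, H₀)` which are used -/
structure Hyp (w : Bool) (H₁ : Set ZFSet.{u}) (H₀ : Set Ordinal.{u}) : Prop where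
  zero : 0 ∈ H₀
  succ : ∀ γ ∈ H₀, γ + 1 ∈ H₀
  pred : ∀ γ, γ + 1 ∈ H₀ → γ ∈ H₀
  diff : ∀ X ∈ H₁, ∀ Y ∈ H₁, X ≠ Y → ∃ a ∈ H₁, ¬ (a ∈ X ↔ a ∈ Y)
  rank : ∀ X ∈ H₁, ∀ β, X ∈ Lp w β → ∃ γ ∈ H₀, γ < β ∧ X ∈ Lp w (γ + 1)
  build : ∀ γ ∈ H₀, ∀ (c : List (Lp.{u} w γ)) (φ : Fm), (∀ a ∈ c, (a : ZFSet.{u}) ∈ H₁) →
    ∃ X ∈ H₁, ∀ a, a ∈ X ↔ ∃ h : a ∈ Lp w γ, Red.{u} (memOn (Lp.{u} w γ)) (⟨a, h⟩ :: c) φ
  params : ∀ γ ∈ H₀, ∀ X ∈ H₁, X ∈ DefSet w (Lp w γ) → ∃ (b : List (Lp.{u} w γ)) (φ ψ : Fm),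
    (∀ a ∈ b, (a : ZFSet.{u}) ∈ H₁) ∧ DeltaPair.{u} w (b.length + 1) φ ψ ∧
      ∀ a : Lp.{u} w γ, (a : ZFSet.{u}) ∈ X ↔ Red.{u} (memOn (Lp.{u} w γ)) (a :: b) φ
  ls : ∀ γ ∈ H₀, ∀ (c : List (Lv w H₁ γ)) (c' : List (Lp.{u} w γ)) (φ : Fm),
    c.map Subtype.val = c'.map Subtype.val → Red.{u} (memOn (Lp.{u} w γ)) c' φ →
      Red.{u} (memOn (Lv w H₁ γ)) c φ

theorem le_of_countable {X : Type (u + 1)} {S : Set X} (h : S.Countable) : #S ≤ ℵ₁ :=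
  (Cardinal.le_aleph0_iff_set_countable.mpr h).trans aleph0_lt_aleph_one.le

theorem lp_succ_of_mem {w : Bool} {X : ZFSet.{u}} {β : Ordinal.{u}} (h : X ∈ Lp w β) :
    ∃ γ < β, X ∈ Lp w (γ + 1) := by
  induction β using Ordinal.limitRecOn with
  | zero =>
    rw [Lp_zero] at h
    exact absurd h (Set.notMem_empty X)
  | add_one β _ => exact ⟨β, Order.lt_add_one_iff.mpr le_rfl, h⟩
  | limit β hβ ih =>
    rw [mem_Lp_limit w hβ] at h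
    obtain ⟨γ, hγ, h⟩ := h
    obtain ⟨δ, hδ, h⟩ := ih γ hγ h
    exact ⟨δ, hδ.trans hγ, h⟩

/-- the requirements on the set `T` of new elements, given `γ`, `c`, `l` -/
def Req (w : Bool) (γ : Ordinal.{u}) (c l : List ZFSet.{u}) (T : Set ZFSet.{u}) : Prop :=
  (∀ X Y, c = [X, Y] → X ≠ Y → ∃ a ∈ T, ¬ (a ∈ X ↔ a ∈ Y)) ∧
  (∀ (c' : List (Lp.{u} w γ)) (φ : Fm), c'.map Subtype.val = c →
    ∃ X ∈ T, ∀ a, a ∈ X ↔ ∃ h : a ∈ Lp w γ, Red.{u} (memOn (Lp.{u} w γ)) (⟨a, h⟩ :: c') φ) ∧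
  (∀ X, c = [X] → X ∈ DefSet w (Lp w γ) → ∃ (b : List (Lp.{u} w γ)) (φ ψ : Fm),
    (∀ a ∈ b, (a : ZFSet.{u}) ∈ T) ∧ DeltaPair.{u} w (b.length + 1) φ ψ ∧
      ∀ a : Lp.{u} w γ, (a : ZFSet.{u}) ∈ X ↔ Red.{u} (memOn (Lp.{u} w γ)) (a :: b) φ) ∧
  (∀ (c' l' : List (Lp.{u} w γ)) (φ : Fm), c'.map Subtype.val = c → l'.map Subtype.val = l →
    ∀ h : Red.{u} (memOn (Lp.{u} w γ)) c' φ, Subtype.val '' ((red_ls h).choose l') ⊆ T)

theorem Req.mono {w : Bool} {γ : Ordinal.{u}} {c l : List ZFSet.{u}} {T T' : Set ZFSet.{u}}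
    (h : Req w γ c l T) (hT : T ⊆ T') : Req w γ c l T' := by
  refine ⟨fun X Y h1 h2 => ?_, fun c' φ h1 => ?_, fun X h1 h2 => ?_, fun c' l' φ h1 h2 h3 =>
    (h.2.2.2 c' l' φ h1 h2 h3).trans hT⟩
  · obtain ⟨a, ha, ha'⟩ := h.1 X Y h1 h2
    exact ⟨a, hT ha, ha'⟩
  · obtain ⟨X, ha, ha'⟩ := h.2.1 c' φ h1
    exact ⟨X, hT ha, ha'⟩
  · obtain ⟨b, φ, ψ, hb, h3⟩ := h.2.2.1 X h1 h2
    exact ⟨b, φ, ψ, fun a ha => hT (hb a ha), h3⟩

theorem exists_req (w : Bool) (γ : Ordinal.{u}) (c l : List ZFSet.{u}) :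
    ∃ T : Set ZFSet.{u}, #T ≤ ℵ₁ ∧ Req w γ c l T := by
  have h0 : ℵ₀ ≤ (ℵ₁ : Cardinal.{u + 1}) := aleph0_lt_aleph_one.le
  have hinj : Function.Injective (List.map (Subtype.val : Lp.{u} w γ → ZFSet.{u})) :=
    List.map_injective_iff.mpr Subtype.val_injective
  have h1 : ∃ T : Set ZFSet.{u}, #T ≤ ℵ₁ ∧
      ∀ X Y, c = [X, Y] → X ≠ Y → ∃ a ∈ T, ¬ (a ∈ X ↔ a ∈ Y) := by
    by_cases h : ∃ X Y, c = [X, Y] ∧ X ≠ Y
    · obtain ⟨X, Y, hc, hne⟩ := h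
      have h2 : ∃ a, ¬ (a ∈ X ↔ a ∈ Y) := by
        by_contra h3
        push Not at h3
        exact hne (ZFSet.ext h3)
      obtain ⟨a, ha⟩ := h2
      refine ⟨{a}, le_of_countable (Set.countable_singleton a), fun X' Y' hc' _ => ⟨a, rfl, ?_⟩⟩
      rw [hc] at hc'
      simp only [List.cons.injEq, and_true] at hc'
      rw [← hc'.1, ← hc'.2]
      exact ha
    · exact ⟨∅, by simp, fun X Y hc hne => absurd ⟨X, Y, hc, hne⟩ h⟩
  have h2 : ∃ T : Set ZFSet.{u}, #T ≤ ℵ₁ ∧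
      ∀ (c' : List (Lp.{u} w γ)) (φ : Fm), c'.map Subtype.val = c → ∃ X ∈ T, ∀ a,
        a ∈ X ↔ ∃ h : a ∈ Lp w γ, Red.{u} (memOn (Lp.{u} w γ)) (⟨a, h⟩ :: c') φ := by
    by_cases h : ∃ c' : List (Lp.{u} w γ), c'.map Subtype.val = c
    · obtain ⟨c', hc'⟩ := h
      have h3 : ∀ φ : Fm, ∃ X : ZFSet.{u}, ∀ a, a ∈ X ↔
          ∃ h : a ∈ Lp w γ, Red.{u} (memOn (Lp.{u} w γ)) (⟨a, h⟩ :: c') φ := by
        intro φ
        obtain ⟨X, hX⟩ := exists_builder w γ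
          fun a => ∃ h : a ∈ Lp w γ, Red.{u} (memOn (Lp.{u} w γ)) (⟨a, h⟩ :: c') φ
        refine ⟨X, fun a => (hX a).trans ⟨fun h => h.2, fun h => ⟨h.1, h⟩⟩⟩
      choose X hX using h3
      refine ⟨Set.range X, le_of_countable (Set.countable_range X), fun c'' φ hc'' =>
        ⟨X φ, ⟨φ, rfl⟩, ?_⟩⟩
      have h4 : c'' = c' := hinj (hc''.trans hc'.symm)
      rw [h4]
      exact hX φ
    · exact ⟨∅, by simp, fun c' φ hc' => absurd ⟨c', hc'⟩ h⟩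
  have h3 : ∃ T : Set ZFSet.{u}, #T ≤ ℵ₁ ∧ ∀ X, c = [X] → X ∈ DefSet w (Lp w γ) →
      ∃ (b : List (Lp.{u} w γ)) (φ ψ : Fm),
        (∀ a ∈ b, (a : ZFSet.{u}) ∈ T) ∧ DeltaPair.{u} w (b.length + 1) φ ψ ∧
          ∀ a : Lp.{u} w γ, (a : ZFSet.{u}) ∈ X ↔
            Red.{u} (memOn (Lp.{u} w γ)) (a :: b) φ := by
    by_cases h : ∃ X, c = [X] ∧ X ∈ DefSet w (Lp w γ)
    · obtain ⟨X, hc, -, b, φ, ψ, hd, hb⟩ := h
      refine ⟨{x | x ∈ b.map Subtype.val}, le_of_countable (List.finite_toSet _).countable,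
        fun X' hc' _ => ⟨b, φ, ψ, fun a ha => List.mem_map.mpr ⟨a, ha, rfl⟩, hd, ?_⟩⟩
      rw [hc] at hc'
      simp only [List.cons.injEq, and_true] at hc'
      rw [← hc']
      exact hb
    · exact ⟨∅, by simp, fun X hc hX => absurd ⟨X, hc, hX⟩ h⟩
  have h4 : ∃ T : Set ZFSet.{u}, #T ≤ ℵ₁ ∧ ∀ (c' l' : List (Lp.{u} w γ)) (φ : Fm),
      c'.map Subtype.val = c → l'.map Subtype.val = l →
      ∀ h : Red.{u} (memOn (Lp.{u} w γ)) c' φ, Subtype.val '' ((red_ls h).choose l') ⊆ T := by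
    by_cases h : ∃ c' l' : List (Lp.{u} w γ), c'.map Subtype.val = c ∧ l'.map Subtype.val = l
    · obtain ⟨c', l', hc', hl'⟩ := h
      refine ⟨⋃ φ : Fm, {a | ∃ h : Red.{u} (memOn (Lp.{u} w γ)) c' φ,
        a ∈ Subtype.val '' ((red_ls h).choose l')}, ?_, ?_⟩
      · refine card_iUnion_le_countable h0 fun φ => ?_
        by_cases h : Red.{u} (memOn (Lp.{u} w γ)) c' φ
        · refine (mk_le_mk_of_subset (t := Subtype.val '' ((red_ls h).choose l')) ?_).trans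
            (mk_image_le.trans ((red_ls h).choose_spec.1 l'))
          rintro a ⟨_, ha⟩
          exact ha
        · refine le_of_countable ?_
          have : {a | ∃ h : Red.{u} (memOn (Lp.{u} w γ)) c' φ,
              a ∈ Subtype.val '' ((red_ls h).choose l')} = ∅ := by
            rw [Set.eq_empty_iff_forall_notMem]
            rintro a ⟨h', _⟩
            exact h h'
          rw [this]
          exact Set.countable_empty
      · intro c'' l'' φ hc'' hl'' hr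
        have h5 : c'' = c' := hinj (hc''.trans hc'.symm)
        have h6 : l'' = l' := hinj (hl''.trans hl'.symm)
        subst h5 h6
        intro a ha
        exact Set.mem_iUnion.mpr ⟨φ, hr, ha⟩
    · exact ⟨∅, by simp, fun c' l' φ hc' hl' => absurd ⟨c', l', hc', hl'⟩ h⟩
  obtain ⟨T1, hT1, h1⟩ := h1
  obtain ⟨T2, hT2, h2⟩ := h2
  obtain ⟨T3, hT3, h3⟩ := h3
  obtain ⟨T4, hT4, h4⟩ := h4
  refine ⟨(T1 ∪ T2) ∪ (T3 ∪ T4), ?_, ?_, ?_, ?_, ?_⟩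
  · refine (mk_union_le _ _).trans (add_le_of_le h0 ?_ ?_)
    · exact (mk_union_le _ _).trans (add_le_of_le h0 hT1 hT2)
    · exact (mk_union_le _ _).trans (add_le_of_le h0 hT3 hT4)
  · intro X Y hc hne
    obtain ⟨a, ha, ha'⟩ := h1 X Y hc hne
    exact ⟨a, Or.inl (Or.inl ha), ha'⟩
  · intro c' φ hc'
    obtain ⟨X, hX, hX'⟩ := h2 c' φ hc'
    exact ⟨X, Or.inl (Or.inr hX), hX'⟩
  · intro X hc hX
    obtain ⟨b, φ, ψ, hb, h5⟩ := h3 X hc hX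
    exact ⟨b, φ, ψ, fun a ha => Or.inr (Or.inl (hb a ha)), h5⟩
  · intro c' l' φ hc' hl' hr
    exact (h4 c' l' φ hc' hl' hr).trans fun a ha => Or.inr (Or.inr ha)

/-- existence of the hull -/
theorem exists_hyp (w : Bool) {κ : Cardinal.{u + 1}} (hκ : ℵ₁ ≤ κ) (S : Set ZFSet.{u})
    (hS : #S ≤ κ) (α : Ordinal.{u}) : ∃ (H₁ : Set ZFSet.{u}) (H₀ : Set Ordinal.{u}),
      S ⊆ H₁ ∧ α ∈ H₀ ∧ #H₀ ≤ κ ∧ Hyp w H₁ H₀ := by
  classical
  have h0 : ℵ₀ ≤ κ := aleph0_lt_aleph_one.le.trans hκ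
  choose T hT hT' using exists_req w
  let M₀ : Ordinal.{u} → List ZFSet.{u} → List ZFSet.{u} → Set Ordinal.{u} := fun γ c _ =>
    {δ | δ = γ + 1 ∨ δ + 1 = γ ∨ ∃ X, c = [X] ∧ δ = sInf {δ | X ∈ Lp w (δ + 1)}}
  have hM₀ : ∀ γ c l, #(M₀ γ c l) ≤ κ := by
    intro γ c l
    refine (le_of_countable ?_).trans hκ
    have h1 : {δ : Ordinal.{u} | δ = γ + 1}.Countable := Set.countable_singleton _
    have h2 : {δ : Ordinal.{u} | δ + 1 = γ}.Countable := by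
      refine Set.Subsingleton.countable ?_
      intro a ha b hb
      have : a + 1 = b + 1 := ha.trans hb.symm
      simpa using this
    have h3 : {δ : Ordinal.{u} | ∃ X, c = [X] ∧ δ = sInf {δ | X ∈ Lp w (δ + 1)}}.Countable := by
      refine Set.Subsingleton.countable ?_
      rintro a ⟨X, hX, rfl⟩ b ⟨Y, hY, rfl⟩
      rw [hX] at hY
      simp only [List.cons.injEq, and_true] at hY
      rw [hY]
    exact h1.union (h2.union h3)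
  obtain ⟨H₁, H₀, hS₁, hS₀, hc₁, hc₀, hcl⟩ := hull h0 (fun γ c l => T γ c l) M₀
    (fun γ c l => (hT γ c l).trans hκ) hM₀ S {α, 0} hS
    ((le_of_countable (Set.countable_insert.mpr (Set.countable_singleton _))).trans hκ)
  have hreq : ∀ γ ∈ H₀, ∀ c l : List ZFSet.{u}, (∀ a ∈ c, a ∈ H₁) → (∀ a ∈ l, a ∈ H₁) →
      Req w γ c l H₁ := fun γ hγ c l hc hl => (hT' γ c l).mono (hcl γ hγ c l hc hl).1
  have hz : (0 : Ordinal.{u}) ∈ H₀ := hS₀ (Or.inr rfl)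
  refine ⟨H₁, H₀, hS₁, hS₀ (Or.inl rfl), hc₀, hz, ?_, ?_, ?_, ?_, ?_, ?_, ?_⟩
  · intro γ hγ
    exact (hcl γ hγ [] [] (by simp) (by simp)).2 (Or.inl rfl)
  · intro γ hγ
    exact (hcl _ hγ [] [] (by simp) (by simp)).2 (Or.inr (Or.inl rfl))
  · intro X hX Y hY hne
    exact (hreq 0 hz [X, Y] [] (by simp [hX, hY]) (by simp)).1 X Y rfl hne
  · intro X hX β hβ
    obtain ⟨γ, hγ, h1⟩ := lp_succ_of_mem hβ
    have h2 : sInf {δ | X ∈ Lp w (δ + 1)} ∈ H₀ :=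
      (hcl 0 hz [X] [] (by simp [hX]) (by simp)).2 (Or.inr (Or.inr ⟨X, rfl, rfl⟩))
    have h3 : sInf {δ | X ∈ Lp w (δ + 1)} ∈ {δ | X ∈ Lp w (δ + 1)} := csInf_mem ⟨γ, h1⟩
    have h4 : γ ∈ {δ | X ∈ Lp w (δ + 1)} := h1
    exact ⟨_, h2, (csInf_le' h4).trans_lt hγ, h3⟩
  · intro γ hγ c φ hc
    refine (hreq γ hγ (c.map Subtype.val) [] ?_ (by simp)).2.1 c φ rfl
    intro a ha
    obtain ⟨b, hb, rfl⟩ := List.mem_map.mp ha
    exact hc b hb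
  · intro γ hγ X hX h
    exact (hreq γ hγ [X] [] (by simp [hX]) (by simp)).2.2.1 X rfl h
  · intro γ hγ c c' φ hcc hr
    have h1 := (red_ls hr).choose_spec.2
    let S' : Set (Lp.{u} w γ) := {a | (a : ZFSet.{u}) ∈ H₁}
    let g : S' ≃ Lv w H₁ γ :=
      { toFun := fun a => ⟨a.1.1, a.2, a.1.2⟩
        invFun := fun a => ⟨⟨a.1, a.2.2⟩, a.2.1⟩
        left_inv := fun a => rfl
        right_inv := fun a => rfl }
    have hcH : ∀ a ∈ c', (a : ZFSet.{u}) ∈ H₁ := by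
      intro a ha
      have h2 : (a : ZFSet.{u}) ∈ c.map Subtype.val := by
        rw [hcc]
        exact List.mem_map.mpr ⟨a, ha, rfl⟩
      obtain ⟨b, _, hb'⟩ := List.mem_map.mp h2
      rw [← hb']
      exact b.2.1
    have h3 := h1 S' (c.map g.symm) ?_ ?_
    · have h4 := (red_iff (e := fun x y : S' => memOn (Lp.{u} w γ) x y) (e' := memOn (Lv w H₁ γ)) g
        (fun x y => Iff.rfl) (c := c.map g.symm) (φ := φ)).mpr h3
      rw [List.map_map] at h4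
      simpa using h4
    · apply List.map_injective_iff.mpr (Subtype.val_injective (p := fun a => a ∈ Lp.{u} w γ))
      rw [← hcc, List.map_map, List.map_map]
      rfl
    · intro l hl a ha
      have h5 := (hreq γ hγ (c'.map Subtype.val) (l.map Subtype.val) ?_ ?_).2.2.2 c' l φ rfl rfl hr
      · exact h5 ⟨a, ha, rfl⟩
      · intro a ha
        obtain ⟨b, hb, rfl⟩ := List.mem_map.mp ha
        exact hcH b hb
      · intro a ha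
        obtain ⟨b, hb, rfl⟩ := List.mem_map.mp ha
        exact hl b hb

end Pool.Agent.H86.DQ
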