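import Pool.Agent.H86.DQ.Defs
import Pool.Agent.H86.DQ.Hull

/-!
# Löwenheim-Skolem for many-sorted `L(Q₁, W)`
-/

set_option autoImplicit false

universe u v

open Cardinal

namespace Pool.Agent.H86.DQ

/-- all variables occurring in a formula -/
def Fm.vs : Fm → List (ℕ × ℕ)
  | .eq s i j => [(s, i), (s, j)]
  | .mem i j => [(0, i), (0, j)]
  | .cst i _ => [(0, i)]
  | .rel _ l => l
  | .neg φ => φ.vs
  | .and φ ψ => φ.vs ++ ψ.vs
  | .ex s i φ => (s, i) :: φ.vs
  | .q s i φ => (s, i) :: φ.vs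
  | .wf s i j φ => (s, i) :: (s, j) :: φ.vs

/-- a code of a formula -/
def Fm.enc : Fm → ℕ
  | .eq s i j => Nat.pair 0 (Nat.pair s (Nat.pair i j))
  | .mem i j => Nat.pair 1 (Nat.pair i j)
  | .cst i k => Nat.pair 2 (Nat.pair i k)
  | .rel r l => Nat.pair 3 (Nat.pair r (Encodable.encode l))
  | .neg φ => Nat.pair 4 φ.enc
  | .and φ ψ => Nat.pair 5 (Nat.pair φ.enc ψ.enc)
  | .ex s i φ => Nat.pair 6 (Nat.pair s (Nat.pair i φ.enc))
  | .q s i φ => Nat.pair 7 (Nat.pair s (Nat.pair i φ.enc))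
  | .wf s i j φ => Nat.pair 8 (Nat.pair s (Nat.pair i (Nat.pair j φ.enc)))

theorem enc_injective : Function.Injective Fm.enc := by
  intro φ
  induction φ with
  | eq s i j => intro ψ h; cases ψ <;> simp [Fm.enc] at h; simp_all
  | mem i j => intro ψ h; cases ψ <;> simp [Fm.enc] at h; simp_all
  | cst i k => intro ψ h; cases ψ <;> simp [Fm.enc] at h; simp_all
  | rel r l => intro ψ h; cases ψ <;> simp [Fm.enc] at h; simp_all
  | neg φ ih => intro ψ h; cases ψ <;> simp [Fm.enc] at h; rw [ih h]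
  | and φ φ' ih ih' => intro ψ h; cases ψ <;> simp [Fm.enc] at h; rw [ih h.1, ih' h.2]
  | ex s i φ ih => intro ψ h; cases ψ <;> simp [Fm.enc] at h; rw [h.1, h.2.1, ih h.2.2]
  | q s i φ ih => intro ψ h; cases ψ <;> simp [Fm.enc] at h; rw [h.1, h.2.1, ih h.2.2]
  | wf s i j φ ih =>
    intro ψ h; cases ψ <;> simp [Fm.enc] at h; rw [h.1, h.2.1, h.2.2.1, ih h.2.2.2]

theorem fm_countable : Countable Fm := enc_injective.countable

instance : Countable Fm := fm_countable

variable (N : Str.{u})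

theorem upd_agree {v v' : N.Asg} {s i : ℕ} {a : N.D s} {p : ℕ × ℕ}
    (h : v p.1 p.2 = v' p.1 p.2) : N.upd v s i a p.1 p.2 = N.upd v' s i a p.1 p.2 := by
  obtain ⟨t, j⟩ := p
  unfold Str.upd
  by_cases ht : t = s
  · subst ht
    simp only [Function.update_self]
    by_cases hj : j = i
    · subst hj
      simp
    · simp only [Function.update_of_ne hj]
      exact h
  · simp only [Function.update_of_ne ht]
    exact h

theorem sat_congr (φ : Fm) : ∀ (v v' : N.Asg), (∀ p ∈ φ.vs, v p.1 p.2 = v' p.1 p.2) →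
    (N.Sat φ v ↔ N.Sat φ v') := by
  induction φ with
  | eq s i j =>
    intro v v' h
    have h1 := h (s, i) (by simp [Fm.vs])
    have h2 := h (s, j) (by simp [Fm.vs])
    simp only at h1 h2
    simp only [Str.Sat, h1, h2]
  | mem i j =>
    intro v v' h
    have h1 := h (0, i) (by simp [Fm.vs])
    have h2 := h (0, j) (by simp [Fm.vs])
    simp only at h1 h2
    simp only [Str.Sat, h1, h2]
  | cst i k =>
    intro v v' h
    have h1 := h (0, i) (by simp [Fm.vs])
    simp only at h1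
    simp only [Str.Sat, h1]
  | rel r l =>
    intro v v' h
    have h1 : (l.map fun p => (⟨p.1, v p.1 p.2⟩ : Σ s, N.D s)) =
        l.map fun p => ⟨p.1, v' p.1 p.2⟩ := by
      apply List.map_congr_left
      intro p hp
      rw [h p hp]
    simp only [Str.Sat, h1]
  | neg φ ih =>
    intro v v' h
    simp only [Str.Sat, ih v v' h]
  | and φ ψ ih ih' =>
    intro v v' h
    simp only [Str.Sat]
    rw [ih v v' (fun p hp => h p (List.mem_append.mpr (Or.inl hp))),
      ih' v v' (fun p hp => h p (List.mem_append.mpr (Or.inr hp)))]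
  | ex s i φ ih =>
    intro v v' h
    simp only [Str.Sat]
    refine exists_congr fun a => ih _ _ fun p hp => upd_agree N (h p (by simp [Fm.vs, hp]))
  | q s i φ ih =>
    intro v v' h
    simp only [Str.Sat]
    have h1 : {a | N.Sat φ (N.upd v s i a)} = {a | N.Sat φ (N.upd v' s i a)} := by
      ext a
      exact ih _ _ fun p hp => upd_agree N (h p (by simp [Fm.vs, hp]))
    rw [h1]
  | wf s i j φ ih =>
    intro v v' h
    simp only [Str.Sat]
    have h1 : (fun a b => N.Sat φ (N.upd (N.upd v s i a) s j b)) =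
        fun a b => N.Sat φ (N.upd (N.upd v' s i a) s j b) := by
      funext a b
      exact propext (ih _ _ fun p hp => upd_agree N (upd_agree N (h p (by simp [Fm.vs, hp]))))
    rw [h1]

/-- the values of an assignment at the variables of a formula -/
def vals (φ : Fm) (v : N.Asg) : List (Σ s, N.D s) := φ.vs.map fun p => ⟨p.1, v p.1 p.2⟩

theorem vals_eq {φ : Fm} {v v' : N.Asg} (h : vals N φ v = vals N φ v') :
    ∀ p ∈ φ.vs, v p.1 p.2 = v' p.1 p.2 := by
  intro p hp
  have h1 := (List.map_inj_left.mp h) p hp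
  simpa using h1

/-- `S` contains witnesses for the first quantifier of `φ` -/
def Good (φ : Fm) (v : N.Asg) (S : Set (Σ s, N.D s)) : Prop :=
  match φ with
  | .ex s i χ => N.Sat (.ex s i χ) v → ∃ a, (⟨s, a⟩ : Σ s, N.D s) ∈ S ∧ N.Sat χ (N.upd v s i a)
  | .q s i χ => N.Sat (.q s i χ) v →
      ¬ {a | (⟨s, a⟩ : Σ s, N.D s) ∈ S ∧ N.Sat χ (N.upd v s i a)}.Countable
  | .wf s i j χ => ¬ N.Sat (.wf s i j χ) v → ∃ f : ℕ → N.D s,
      (∀ n, (⟨s, f n⟩ : Σ s, N.D s) ∈ S) ∧ ∀ n, N.Sat χ (N.upd (N.upd v s i (f (n + 1))) s j (f n))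
  | _ => True

theorem exists_good (φ : Fm) (v : N.Asg) : ∃ S : Set (Σ s, N.D s), #S ≤ ℵ₁ ∧ Good N φ v S := by
  cases φ with
  | ex s i χ =>
    by_cases h : N.Sat (.ex s i χ) v
    · obtain ⟨a, ha⟩ := h
      refine ⟨{⟨s, a⟩}, ?_, fun _ => ⟨a, rfl, ha⟩⟩
      rw [mk_singleton]
      exact one_le_aleph0.trans aleph0_lt_aleph_one.le
    · exact ⟨∅, by simp, fun h' => absurd h' h⟩
  | q s i χ =>
    by_cases h : N.Sat (.q s i χ) v
    · have h1 : ℵ₁ ≤ #{a | N.Sat χ (N.upd v s i a)} := by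
        rw [← succ_aleph0, Order.succ_le_iff]
        rw [← not_le]
        intro h2
        exact h (Cardinal.le_aleph0_iff_set_countable.mp h2)
      obtain ⟨T, hT, hT'⟩ := le_mk_iff_exists_subset.mp h1
      refine ⟨(fun a => (⟨s, a⟩ : Σ s, N.D s)) '' T, mk_image_le.trans hT'.le, fun _ hc => ?_⟩
      have h3 : T.Countable := by
        refine hc.mono ?_
        intro a ha
        exact ⟨⟨a, ha, rfl⟩, hT ha⟩
      rw [← Cardinal.le_aleph0_iff_set_countable, hT'] at h3
      exact absurd h3 (not_le.mpr aleph0_lt_aleph_one)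
    · exact ⟨∅, by simp, fun h' => absurd h' h⟩
  | wf s i j χ =>
    by_cases h : N.Sat (.wf s i j χ) v
    · exact ⟨∅, by simp, fun h' => absurd h h'⟩
    · have h0 : ¬ WellFounded fun a b => N.Sat χ (N.upd (N.upd v s i a) s j b) := h
      rw [wellFounded_iff_isEmpty_descending_chain, not_isEmpty_iff] at h0
      obtain ⟨f, hf⟩ := h0
      refine ⟨Set.range fun n => (⟨s, f n⟩ : Σ s, N.D s), ?_, fun _ => ⟨f, fun n => ⟨n, rfl⟩, hf⟩⟩
      exact (Cardinal.le_aleph0_iff_set_countable.mpr (Set.countable_range _)).trans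
        aleph0_lt_aleph_one.le
  | _ => exact ⟨∅, by simp, trivial⟩

/-- the substructure with universe `K` -/
def restr (K : Set (Σ s, N.D s)) (hne : ∀ s, Nonempty {a : N.D s // (⟨s, a⟩ : Σ s, N.D s) ∈ K})
    (hc : ∀ a ∈ N.c, (⟨0, a⟩ : Σ s, N.D s) ∈ K) : Str.{u} where
  D s := {a : N.D s // (⟨s, a⟩ : Σ s, N.D s) ∈ K}
  ne := hne
  e x y := N.e x.1 y.1
  c := N.c.attachWith _ hc
  R r l := N.R r (l.map fun p => ⟨p.1, p.2.1⟩)

variable {N}

theorem restr_upd {K : Set (Σ s, N.D s)}
    {hne : ∀ s, Nonempty {a : N.D s // (⟨s, a⟩ : Σ s, N.D s) ∈ K}}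
    {hc : ∀ a ∈ N.c, (⟨0, a⟩ : Σ s, N.D s) ∈ K} (v : (restr N K hne hc).Asg) (s i : ℕ)
    (a : (restr N K hne hc).D s) :
    (fun t j => (((restr N K hne hc).upd v s i a) t j).1) =
      N.upd (fun t j => (v t j).1) s i a.1 := by
  funext t j
  unfold Str.upd
  by_cases ht : t = s
  · subst ht
    simp only [Function.update_self]
    by_cases hj : j = i
    · subst hj
      simp
    · simp only [Function.update_of_ne hj]
  · simp only [Function.update_of_ne ht]

/-- if `K` contains witnesses for all formulas and all assignments in `K`, then the restriction is an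
elementary substructure -/
theorem restr_sat {K : Set (Σ s, N.D s)}
    {hne : ∀ s, Nonempty {a : N.D s // (⟨s, a⟩ : Σ s, N.D s) ∈ K}}
    {hc : ∀ a ∈ N.c, (⟨0, a⟩ : Σ s, N.D s) ∈ K}
    (hK : ∀ (φ : Fm) (v : N.Asg), (∀ x ∈ vals N φ v, x ∈ K) → Good N φ v K) (φ : Fm) :
    ∀ v : (restr N K hne hc).Asg,
      ((restr N K hne hc).Sat φ v ↔ N.Sat φ fun s i => (v s i).1) := by
  have hv : ∀ (φ : Fm) (v : (restr N K hne hc).Asg),
      ∀ x ∈ vals N φ (fun s i => (v s i).1), x ∈ K := by
    intro φ v x hx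
    obtain ⟨p, _, rfl⟩ := List.mem_map.mp hx
    exact (v p.1 p.2).2
  induction φ with
  | eq s i j =>
    intro v
    exact Subtype.ext_iff
  | mem i j =>
    intro v
    exact Iff.rfl
  | cst i k =>
    intro v
    change (N.c.attachWith _ hc)[k]? = some (v 0 i) ↔ N.c[k]? = some (v 0 i).1
    have h1 : ((N.c.attachWith _ hc)[k]?).map Subtype.val = N.c[k]? := by
      rw [← List.getElem?_map, List.attachWith_map_subtype_val]
    rw [← h1]
    constructor
    · intro h
      rw [h]
      rfl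
    · intro h
      rw [Option.map_eq_some_iff] at h
      obtain ⟨a, ha, ha'⟩ := h
      rw [ha]
      exact congrArg some (Subtype.ext ha')
  | rel r l =>
    intro v
    change N.R r ((l.map fun p => (⟨p.1, v p.1 p.2⟩ : Σ s, (restr N K hne hc).D s)).map
      fun p => ⟨p.1, p.2.1⟩) ↔ N.R r _
    rw [List.map_map]
    rfl
  | neg φ ih =>
    intro v
    exact not_congr (ih v)
  | and φ ψ ih ih' =>
    intro v
    exact and_congr (ih v) (ih' v)
  | ex s i φ ih =>
    intro v
    constructor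
    · rintro ⟨a, ha⟩
      refine ⟨a.1, ?_⟩
      rw [ih, restr_upd] at ha
      exact ha
    · intro h
      obtain ⟨a, ha, ha'⟩ := hK (.ex s i φ) _ (hv _ v) h
      refine ⟨⟨a, ha⟩, ?_⟩
      rw [ih, restr_upd]
      exact ha'
  | q s i φ ih =>
    intro v
    have key : ∀ a : (restr N K hne hc).D s, (restr N K hne hc).Sat φ
        ((restr N K hne hc).upd v s i a) ↔ N.Sat φ (N.upd (fun t j => (v t j).1) s i a.1) := by
      intro a
      rw [ih, restr_upd]
    constructor
    · intro h hcount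
      apply h
      have h1 : {a | (restr N K hne hc).Sat φ ((restr N K hne hc).upd v s i a)} =
          Subtype.val ⁻¹' {a | N.Sat φ (N.upd (fun t j => (v t j).1) s i a)} := by
        ext a
        exact key a
      rw [h1]
      exact hcount.preimage Subtype.val_injective
    · intro h hcount
      refine hK (.q s i φ) _ (hv _ v) h ?_
      refine (hcount.image Subtype.val).mono ?_
      rintro a ⟨ha, ha'⟩
      exact ⟨⟨a, ha⟩, (key ⟨a, ha⟩).mpr ha', rfl⟩
  | wf s i j φ ih =>
    intro v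
    have key : ∀ a b : (restr N K hne hc).D s, (restr N K hne hc).Sat φ
        ((restr N K hne hc).upd ((restr N K hne hc).upd v s i a) s j b) ↔
          N.Sat φ (N.upd (N.upd (fun t j => (v t j).1) s i a.1) s j b.1) := by
      intro a b
      rw [ih, restr_upd, restr_upd]
    constructor
    · intro h
      by_contra hn
      obtain ⟨f, hf, hf'⟩ := hK (.wf s i j φ) _ (hv _ v) hn
      have h' := wellFounded_iff_isEmpty_descending_chain.mp h
      refine h'.false ⟨fun n => ⟨f n, hf n⟩, fun n => ?_⟩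
      exact (key ⟨f (n + 1), hf (n + 1)⟩ ⟨f n, hf n⟩).mpr (hf' n)
    · intro h
      have h1 : (fun a b => (restr N K hne hc).Sat φ ((restr N K hne hc).upd
          ((restr N K hne hc).upd v s i a) s j b)) = fun a b =>
            N.Sat φ (N.upd (N.upd (fun t j => (v t j).1) s i a.1) s j b.1) := by
        funext a b
        exact propext (key a b)
      change WellFounded (fun a b => (restr N K hne hc).Sat φ ((restr N K hne hc).upd
          ((restr N K hne hc).upd v s i a) s j b))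
      rw [h1]
      exact InvImage.wf Subtype.val h

theorem good_congr {φ : Fm} {v v' : N.Asg} {S : Set (Σ s, N.D s)}
    (h : ∀ p ∈ φ.vs, v p.1 p.2 = v' p.1 p.2) (hg : Good N φ v S) : Good N φ v' S := by
  cases φ with
  | ex s i χ =>
    intro h'
    obtain ⟨a, ha, ha'⟩ := hg ((sat_congr N _ v v' h).mpr h')
    exact ⟨a, ha, (sat_congr N χ _ _ fun p hp => upd_agree N (h p (by simp [Fm.vs, hp]))).mp ha'⟩
  | q s i χ =>
    intro h' hcount
    refine hg ((sat_congr N _ v v' h).mpr h') (hcount.mono ?_)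
    rintro a ⟨ha, ha'⟩
    exact ⟨ha, (sat_congr N χ _ _ fun p hp => upd_agree N (h p (by simp [Fm.vs, hp]))).mp ha'⟩
  | wf s i j χ =>
    intro h'
    obtain ⟨f, hf, hf'⟩ := hg (fun h'' => h' ((sat_congr N _ v v' h).mp h''))
    exact ⟨f, hf, fun n => (sat_congr N χ _ _ fun p hp =>
      upd_agree N (upd_agree N (h p (by simp [Fm.vs, hp])))).mp (hf' n)⟩
  | _ => trivial

theorem good_mono {φ : Fm} {v : N.Asg} {S T : Set (Σ s, N.D s)} (h : S ⊆ T)
    (hg : Good N φ v S) : Good N φ v T := by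
  cases φ with
  | ex s i χ =>
    intro h'
    obtain ⟨a, ha, ha'⟩ := hg h'
    exact ⟨a, h ha, ha'⟩
  | q s i χ =>
    intro h' hcount
    refine hg h' (hcount.mono ?_)
    rintro a ⟨ha, ha'⟩
    exact ⟨h ha, ha'⟩
  | wf s i j χ =>
    intro h'
    obtain ⟨f, hf, hf'⟩ := hg h'
    exact ⟨f, fun n => h (hf n), hf'⟩
  | _ => trivial

/-- Löwenheim-Skolem: there is a function `M` from finite sequences to sets of size at most `ℵ₁`
such that all sets closed under `M` (and containing the constants) are elementary substructures -/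
theorem ls (N : Str.{u}) : ∃ M : List (Σ s, N.D s) → Set (Σ s, N.D s), (∀ l, #(M l) ≤ ℵ₁) ∧
    ∀ K, Closed M K → (∀ s, Nonempty {a : N.D s // (⟨s, a⟩ : Σ s, N.D s) ∈ K}) ∧
      ∀ (φ : Fm) (v : N.Asg), (∀ x ∈ vals N φ v, x ∈ K) → Good N φ v K := by
  classical
  choose W hW hW' using exists_good N
  let d : ∀ s, N.D s := fun s => Classical.choice (N.ne s)
  let M : List (Σ s, N.D s) → Set (Σ s, N.D s) := fun l =>
    (Set.range fun s => (⟨s, d s⟩ : Σ s, N.D s)) ∪
      ⋃ φ : Fm, {x | ∃ h : ∃ v, vals N φ v = l, x ∈ W φ h.choose}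
  have h0 : ℵ₀ ≤ (ℵ₁ : Cardinal.{u}) := aleph0_lt_aleph_one.le
  refine ⟨M, fun l => ?_, fun K hK => ⟨fun s => ⟨d s, ?_⟩, fun φ v hv => ?_⟩⟩
  · refine (mk_union_le _ _).trans (add_le_of_le h0 ?_ ?_)
    · exact (Cardinal.le_aleph0_iff_set_countable.mpr (Set.countable_range _)).trans h0
    · refine card_iUnion_le_countable h0 fun φ => ?_
      by_cases h : ∃ v, vals N φ v = l
      · refine (mk_le_mk_of_subset ?_).trans (hW φ h.choose)
        rintro x ⟨_, hx⟩
        exact hx
      · have : {x | ∃ h : ∃ v, vals N φ v = l, x ∈ W φ h.choose} = ∅ := by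
          rw [Set.eq_empty_iff_forall_notMem]
          rintro x ⟨h', _⟩
          exact h h'
        rw [this]
        simp
  · exact hK [] (by simp) (Or.inl ⟨s, rfl⟩)
  · have h1 : ∃ v', vals N φ v' = vals N φ v := ⟨v, rfl⟩
    have h2 := h1.choose_spec
    refine good_congr (vals_eq N h2) (good_mono ?_ (hW' φ h1.choose))
    intro x hx
    exact hK (vals N φ v) hv (Or.inr (Set.mem_iUnion.mpr ⟨φ, h1, hx⟩))

end Pool.Agent.H86.DQ
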