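import Pool.Agent.H86.DQ.Hyp
import Pool.Agent.H86.DQ.Col

/-!
# The collapse of the hull
-/

set_option autoImplicit false

universe u v

open Cardinal

namespace Pool.Agent.H86.DQ

variable {w : Bool} {H₁ : Set ZFSet.{u}} {H₀ : Set Ordinal.{u}}

theorem col_inj (h : Hyp w H₁ H₀) {α : Ordinal.{u}} : ∀ X : ZFSet.{u}, X ∈ Lv w H₁ α →
    ∀ Y ∈ Lv w H₁ α, col H₁ X = col H₁ Y → X = Y := by
  intro X
  induction X using ZFSet.inductionOn with
  | h X ih =>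
    intro hX Y hY he
    by_contra hne
    obtain ⟨a, ha, ha'⟩ := h.diff X hX.1 Y hY.1 hne
    by_cases h1 : a ∈ X
    · have h2 : a ∉ Y := fun h3 => ha' ⟨fun _ => h3, fun _ => h1⟩
      have h3 : col H₁ a ∈ col H₁ Y := by
        rw [← he]
        exact (mem_col _ _ _).mpr ⟨a, h1, ha, rfl⟩
      obtain ⟨b, hb, hb', hab⟩ := (mem_col _ _ _).mp h3
      have h4 := ih a h1 ⟨ha, Lp_trans w hX.2 h1⟩ b ⟨hb', Lp_trans w hY.2 hb⟩ hab
      exact h2 (h4 ▸ hb)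
    · have h2 : a ∈ Y := by
        by_contra h3
        exact ha' ⟨fun h4 => absurd h4 h1, fun h4 => absurd h4 h3⟩
      have h3 : col H₁ a ∈ col H₁ X := by
        rw [he]
        exact (mem_col _ _ _).mpr ⟨a, h2, ha, rfl⟩
      obtain ⟨b, hb, hb', hab⟩ := (mem_col _ _ _).mp h3
      have h4 := ih b hb ⟨hb', Lp_trans w hX.2 hb⟩ a ⟨ha, Lp_trans w hY.2 h2⟩ hab.symm
      exact h1 (h4 ▸ hb)

theorem col_mem_iff (h : Hyp w H₁ H₀) {α : Ordinal.{u}} {a X : ZFSet.{u}} (ha : a ∈ Lv w H₁ α)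
    (hX : X ∈ Lv w H₁ α) : col H₁ a ∈ col H₁ X ↔ a ∈ X := by
  constructor
  · intro h1
    obtain ⟨b, hb, hb', hab⟩ := (mem_col _ _ _).mp h1
    rw [col_inj h a ha b ⟨hb', Lp_trans w hX.2 hb⟩ hab]
    exact hb
  · intro h1
    exact (mem_col _ _ _).mpr ⟨a, h1, ha.1, rfl⟩

theorem exists_list_lift {X Y : Type v} {f : X → Y} (l : List Y) (h : ∀ y ∈ l, ∃ x, f x = y) :
    ∃ l' : List X, l'.map f = l := by
  induction l with
  | nil => exact ⟨[], rfl⟩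
  | cons y l ih =>
    obtain ⟨l', hl'⟩ := ih (fun z hz => h z (by simp [hz]))
    obtain ⟨x, hx⟩ := h y (by simp)
    exact ⟨x :: l', by rw [List.map_cons, hl', hx]⟩

/-- the successor step -/
theorem succ_step (h : Hyp w H₁ H₀) {γ : Ordinal.{u}} (hγ : γ ∈ H₀)
    (ih : col H₁ '' Lv w H₁ γ = Lp w (rk H₀ γ)) :
    col H₁ '' Lv w H₁ (γ + 1) = Lp w (rk H₀ (γ + 1)) := by
  rw [rk_succ hγ, Lp_succ]
  let g0 : Lv w H₁ γ → Lp.{u} w (rk H₀ γ) := fun a => ⟨col H₁ a.1, by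
    rw [← ih]
    exact ⟨a.1, a.2, rfl⟩⟩
  have hg0 : Function.Bijective g0 := by
    constructor
    · intro a b hab
      exact Subtype.ext (col_inj h a.1 a.2 b.1 b.2 (congrArg Subtype.val hab))
    · intro y
      have h1 : (y : ZFSet.{u}) ∈ col H₁ '' Lv w H₁ γ := by
        rw [ih]
        exact y.2
      obtain ⟨a, ha, ha'⟩ := h1
      exact ⟨⟨a, ha⟩, Subtype.ext ha'⟩
  let g : Lv w H₁ γ ≃ Lp.{u} w (rk H₀ γ) := Equiv.ofBijective g0 hg0
  have hg : ∀ x y, memOn (Lp.{u} w (rk H₀ γ)) (g x) (g y) ↔ memOn (Lv w H₁ γ) x y :=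
    fun x y => col_mem_iff h x.2 y.2
  let inc : Lv w H₁ γ → Lp.{u} w γ := fun a => ⟨a.1, a.2.2⟩
  have one : ∀ (c : List (Lv w H₁ γ)) (φ : Fm), Red.{u} (memOn (Lp.{u} w γ)) (c.map inc) φ →
      Red.{u} (memOn (Lp.{u} w (rk H₀ γ))) (c.map g) φ := by
    intro c φ hr
    refine (red_iff g hg).mpr (h.ls γ hγ c (c.map inc) φ ?_ hr)
    rw [List.map_map]
    rfl
  have key : ∀ (c : List (Lv w H₁ γ)) (n : ℕ) (φ ψ : Fm), DeltaPair.{u} w n φ ψ →
      c.length = n → (Red.{u} (memOn (Lp.{u} w γ)) (c.map inc) φ ↔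
        Red.{u} (memOn (Lp.{u} w (rk H₀ γ))) (c.map g) φ) := by
    intro c n φ ψ hd hn
    refine ⟨one c φ, fun h1 => ?_⟩
    by_contra h2
    have h3 : Red.{u} (memOn (Lp.{u} w γ)) (c.map inc) ψ := by
      by_contra h4
      exact h2 ((delta_small hd _ _ (by rw [List.length_map, hn])).mpr h4)
    exact (delta_small hd _ _ (by rw [List.length_map, hn])).mp h1 (one c ψ h3)
  have hsub : ∀ X ∈ DefSet w (Lp.{u} w γ), ∀ a ∈ X, a ∈ Lp.{u} w γ := fun X hX => hX.1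
  have hin1 : ∀ a : Lv w H₁ γ, (a : ZFSet.{u}) ∈ Lv w H₁ (γ + 1) := fun a =>
    ⟨a.2.1, Lp_mono w (Order.lt_add_one_iff.mpr le_rfl).le a.2.2⟩
  apply Set.Subset.antisymm
  · rintro _ ⟨X, hX, rfl⟩
    have hX2 := hX.2
    rw [Lp_succ] at hX2
    obtain ⟨b, φ, ψ, hb, hd, hX3⟩ := h.params γ hγ X hX.1 hX2
    obtain ⟨b₀, hb₀⟩ := exists_list_lift (f := inc) b
      (fun y hy => ⟨⟨y.1, hb y hy, y.2⟩, rfl⟩)
    refine ⟨fun y hy => ?_, b₀.map g, φ, ψ, ?_, fun a' => ?_⟩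
    · obtain ⟨a, ha, ha', rfl⟩ := (mem_col _ _ _).mp hy
      rw [← ih]
      exact ⟨a, ⟨ha', hsub X hX2 a ha⟩, rfl⟩
    · rw [List.length_map, ← List.length_map (f := inc), hb₀]
      exact hd
    · obtain ⟨a, rfl⟩ := g.surjective a'
      change col H₁ a.1 ∈ col H₁ X ↔ _
      rw [col_mem_iff h (hin1 a) hX, ← List.map_cons,
        ← key (a :: b₀) (b.length + 1) φ ψ hd (by
          rw [List.length_cons, ← hb₀, List.length_map]), List.map_cons, hb₀]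
      exact hX3 (inc a)
  · intro Y hY
    obtain ⟨hY1, b', φ, ψ, hd, hY2⟩ := hY
    have hb' : (b'.map g.symm).map g = b' := by
      rw [List.map_map]
      simp
    obtain ⟨X, hX, hX'⟩ := h.build γ hγ ((b'.map g.symm).map inc) φ (by
      intro a ha
      obtain ⟨a', _, rfl⟩ := List.mem_map.mp ha
      exact a'.2.1)
    have hXL : X ∈ Lp w (γ + 1) := by
      rw [Lp_succ]
      refine ⟨fun a ha => ((hX' a).mp ha).1, (b'.map g.symm).map inc, φ, ψ, ?_, fun a => ?_⟩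
      · rw [List.length_map, List.length_map]
        exact hd
      · rw [hX']
        exact ⟨fun h1 => h1.2, fun h1 => ⟨a.2, h1⟩⟩
    have hmem : ∀ a : Lv w H₁ γ, (a : ZFSet.{u}) ∈ X ↔ (g a : ZFSet.{u}) ∈ Y := by
      intro a
      rw [hY2 (g a), hX']
      have h2 := key (a :: b'.map g.symm) (b'.length + 1) φ ψ hd (by
        rw [List.length_cons, List.length_map])
      rw [List.map_cons, List.map_cons, hb'] at h2
      rw [← h2]
      exact ⟨fun h1 => h1.2, fun h1 => ⟨a.2.2, h1⟩⟩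
    refine ⟨X, ⟨hX, hXL⟩, ?_⟩
    apply ZFSet.ext
    intro y
    constructor
    · intro hy
      obtain ⟨a, ha, ha', rfl⟩ := (mem_col _ _ _).mp hy
      exact (hmem ⟨a, ha', ((hX' a).mp ha).1⟩).mp ha
    · intro hy
      obtain ⟨a, ha⟩ := g.surjective ⟨y, hY1 y hy⟩
      have h3 : (g a : ZFSet.{u}) = y := congrArg Subtype.val ha
      have h4 : (a : ZFSet.{u}) ∈ X := (hmem a).mpr (by rw [h3]; exact hy)
      exact (mem_col _ _ _).mpr ⟨a.1, h4, a.2.1, h3.symm⟩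

/-- the collapse of the hull of a level is a level -/
theorem col_image (h : Hyp w H₁ H₀) (β : Ordinal.{u}) : β ∈ H₀ →
    col H₁ '' Lv w H₁ β = Lp w (rk H₀ β) := by
  induction β using Ordinal.limitRecOn with
  | zero =>
    intro _
    rw [rk_zero, Lp_zero]
    have : Lv w H₁ 0 = ∅ := by
      rw [Set.eq_empty_iff_forall_notMem]
      rintro a ⟨_, ha⟩
      rw [Lp_zero] at ha
      exact ha
    rw [this, Set.image_empty]
  | add_one γ ih =>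
    intro hγ
    exact succ_step h (h.pred γ hγ) (ih (h.pred γ hγ))
  | limit β hβ ih =>
    intro hβH
    have hlim := rk_limit hβ h.zero h.succ
    apply Set.Subset.antisymm
    · rintro _ ⟨X, hX, rfl⟩
      obtain ⟨γ, hγ, hγβ, hXγ⟩ := h.rank X hX.1 β hX.2
      have h1 : γ + 1 < β := hβ.add_one_lt hγβ
      have h2 : γ + 1 ∈ H₀ := h.succ γ hγ
      have h3 : col H₁ X ∈ Lp w (rk H₀ (γ + 1)) := by
        rw [← ih (γ + 1) h1 h2]
        exact ⟨X, ⟨hX.1, hXγ⟩, rfl⟩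
      exact Lp_mono w (rk_lt h1 h2).le h3
    · intro Y hY
      obtain ⟨ξ, hξ, hY⟩ := (mem_Lp_limit w hlim).mp hY
      obtain ⟨δ, h1, h2, rfl⟩ := rk_surj β ξ hξ
      rw [← ih δ h1 h2] at hY
      obtain ⟨X, hX, rfl⟩ := hY
      exact ⟨X, ⟨hX.1, Lp_mono w h1.le hX.2⟩, rfl⟩

/-- subsets in the model of a transitive set of size at most `κ` appear before stage `κ⁺` -/
theorem subset_stage (w : Bool) {κ : Cardinal.{u}} (hκ : ℵ₁ ≤ κ) {t : ZFSet.{u}}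
    (ht : ∀ x ∈ t, ∀ y ∈ x, y ∈ t) (hc : Cardinal.mk t ≤ lift.{u + 1} κ) {x : ZFSet.{u}} (hx : x ∈ C w)
    (hxt : ∀ y ∈ x, y ∈ t) : ∃ β < (Order.succ κ).ord, x ∈ Lp w β := by
  obtain ⟨α, hα⟩ := hx
  have hκ' : ℵ₁ ≤ lift.{u + 1} κ := by
    have h1 : lift.{u + 1} (ℵ₁ : Cardinal.{u}) ≤ lift.{u + 1} κ := lift_le.mpr hκ
    simpa using h1
  have h0 : ℵ₀ ≤ lift.{u + 1} κ := aleph0_lt_aleph_one.le.trans hκ'
  have hS : #({y | y ∈ t} ∪ {x} : Set ZFSet.{u}) ≤ lift.{u + 1} κ := by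
    refine (mk_union_le _ _).trans (add_le_of_le h0 hc ?_)
    rw [mk_singleton]
    exact one_le_aleph0.trans h0
  obtain ⟨H₁, H₀, h1, h2, h3, h4⟩ := exists_hyp w hκ' _ hS α
  have h5 := col_image h4 α h2
  have h6 : col H₁ x = x := col_id ht (fun y hy => h1 (Or.inl hy)) x hxt
  refine ⟨rk H₀ α, rk_lt_ord h3 α, ?_⟩
  rw [← h5]
  exact ⟨x, ⟨h1 (Or.inr rfl), hα⟩, h6⟩

end Pool.Agent.H86.DQ
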