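import Pool.Agent.H86.DQ.LS

/-!
# Reducts: invariance and Löwenheim-Skolem
-/

set_option autoImplicit false

universe u v v'

open Cardinal

namespace Pool.Agent.H86.DQ

theorem red_map {A : Type v} {A' : Type v'} {e : A → A → Prop} {e' : A' → A' → Prop} (g : A ≃ A')
    (hg : ∀ x y, e' (g x) (g y) ↔ e x y) {c : List A} {φ : Fm} (h : Red.{u} e c φ) :
    Red.{u} e' (c.map g) φ := by
  obtain ⟨N, f, he, hc, hN⟩ := h
  refine ⟨N, g.symm.trans f, fun x y => ?_, ?_, hN⟩
  · rw [Equiv.trans_apply, Equiv.trans_apply, he, ← hg, Equiv.apply_symm_apply,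
      Equiv.apply_symm_apply]
  · rw [hc, List.map_map]
    congr 1
    funext x
    simp

theorem red_iff {A : Type v} {A' : Type v'} {e : A → A → Prop} {e' : A' → A' → Prop} (g : A ≃ A')
    (hg : ∀ x y, e' (g x) (g y) ↔ e x y) {c : List A} {φ : Fm} :
    Red.{u} e' (c.map g) φ ↔ Red.{u} e c φ := by
  refine ⟨fun h => ?_, red_map g hg⟩
  have h1 := red_map g.symm (e := e') (e' := e) (fun x y => by
    rw [← hg, Equiv.apply_symm_apply, Equiv.apply_symm_apply]) h
  rw [List.map_map] at h1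
  simpa using h1

/-- the defining property of `Δ`-sentences holds for all small structures -/
theorem delta_small {w : Bool} {n : ℕ} {φ ψ : Fm} (h : DeltaPair.{u} w n φ ψ) {A : Type v}
    [Small.{u} A] (e : A → A → Prop) (c : List A) (hc : c.length = n) :
    Red.{u} e c φ ↔ ¬ Red.{u} e c ψ := by
  let g : A ≃ Shrink.{u} A := equivShrink A
  let e' : Shrink.{u} A → Shrink.{u} A → Prop := fun x y => e (g.symm x) (g.symm y)
  have hg : ∀ x y, e' (g x) (g y) ↔ e x y := fun x y => by
    change e (g.symm (g x)) (g.symm (g y)) ↔ e x y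
    rw [Equiv.symm_apply_apply, Equiv.symm_apply_apply]
  rw [← red_iff g hg, ← red_iff g hg (φ := ψ)]
  exact h.2.2 _ e' (c.map g) (by rw [List.length_map, hc])

/-- Löwenheim-Skolem for reducts -/
theorem red_ls {A : Type v} {e : A → A → Prop} {c : List A} {φ : Fm} (h : Red.{u} e c φ) :
    ∃ G : List A → Set A, (∀ l, #(G l) ≤ ℵ₁) ∧
      ∀ (S : Set A) (c' : List S), c'.map Subtype.val = c →
        (∀ l : List A, (∀ a ∈ l, a ∈ S) → G l ⊆ S) →
          Red.{u} (fun x y : S => e x y) c' φ := by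
  obtain ⟨N, f, he, hc, hN⟩ := h
  obtain ⟨M, hM, hM'⟩ := ls N
  have hf : Function.Injective fun a => (⟨0, f a⟩ : Σ s, N.D s) := by
    intro a b hab
    simpa using hab
  refine ⟨fun l => {a | (⟨0, f a⟩ : Σ s, N.D s) ∈
    Cl M {x | x ∈ l.map fun b => (⟨0, f b⟩ : Σ s, N.D s)}}, fun l => ?_, fun S c' hc' hS => ?_⟩
  · have h0 : ℵ₀ ≤ (ℵ₁ : Cardinal.{u}) := aleph0_lt_aleph_one.le
    have h1 : #(Cl M {x | x ∈ l.map fun b => (⟨0, f b⟩ : Σ s, N.D s)}) ≤ ℵ₁ := by
      refine card_Cl_le h0 hM ?_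
      refine (Cardinal.le_aleph0_iff_set_countable.mpr ?_).trans h0
      exact (List.finite_toSet _).countable
    have h2 : lift.{u} #{a | (⟨0, f a⟩ : Σ s, N.D s) ∈
        Cl M {x | x ∈ l.map fun b => (⟨0, f b⟩ : Σ s, N.D s)}} ≤
        lift.{v} #(Cl M {x | x ∈ l.map fun b => (⟨0, f b⟩ : Σ s, N.D s)}) := by
      refine lift_mk_le_lift_mk_of_injective (f := fun a => ⟨⟨0, f a.1⟩, a.2⟩) ?_
      intro a b hab
      exact Subtype.ext (hf (congrArg Subtype.val hab))
    have h3 := h2.trans (lift_le.mpr h1)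
    rw [lift_aleph] at h3
    rw [← lift_le.{u}, lift_aleph]
    simpa using h3
  · let K : Set (Σ s, N.D s) := Cl M {x | ∃ a ∈ S, x = ⟨0, f a⟩}
    have hK : Closed M K := closed_Cl _
    obtain ⟨hne, hgood⟩ := hM' K hK
    have hin : ∀ a, (⟨0, f a⟩ : Σ s, N.D s) ∈ K ↔ a ∈ S := by
      intro a
      refine ⟨fun ha => ?_, fun ha => subset_Cl _ ⟨a, ha, rfl⟩⟩
      obtain ⟨t, ht, ht'⟩ := mem_Cl_finite ha
      have h4 : ∃ l : List A, (∀ b ∈ l, b ∈ S) ∧ t = l.map fun b => (⟨0, f b⟩ : Σ s, N.D s) := by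
        clear ht' ha
        induction t with
        | nil => exact ⟨[], by simp, rfl⟩
        | cons x t ih =>
          obtain ⟨l, hl, hl'⟩ := ih (fun b hb => ht b (by simp [hb]))
          obtain ⟨b, hb, hb'⟩ := ht x (by simp)
          refine ⟨b :: l, ?_, by rw [hl', hb']; rfl⟩
          intro y hy
          rcases List.mem_cons.mp hy with rfl | hy
          exacts [hb, hl y hy]
      obtain ⟨l, hl, rfl⟩ := h4
      exact hS l hl ht'
    have hcK : ∀ a ∈ N.c, (⟨0, a⟩ : Σ s, N.D s) ∈ K := by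
      intro a ha
      rw [hc, ← hc'] at ha
      obtain ⟨b, hb, rfl⟩ := List.mem_map.mp ha
      obtain ⟨b', hb', rfl⟩ := List.mem_map.mp hb
      exact (hin b'.1).mpr b'.2
    let g : S ≃ (restr N K hne hcK).D 0 :=
      { toFun := fun a => ⟨f a.1, (hin a.1).mpr a.2⟩
        invFun := fun x => ⟨f.symm x.1, by
          have := x.2
          rw [← f.apply_symm_apply x.1] at this
          exact (hin _).mp this⟩
        left_inv := fun a => by simp
        right_inv := fun x => by
          apply Subtype.ext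
          simp }
    refine ⟨restr N K hne hcK, g, fun x y => he x.1 y.1, ?_, fun v => ?_⟩
    · change N.c.attachWith _ hcK = c'.map g
      apply List.map_injective_iff.mpr Subtype.val_injective
      rw [List.attachWith_map_subtype_val, hc, ← hc', List.map_map]
      have h5 : ∀ l : List S, l.map (⇑f ∘ Subtype.val) = List.map Subtype.val
          (show List {x : N.D 0 // (⟨0, x⟩ : Σ s, N.D s) ∈ K} from l.map g) := by
        intro l
        induction l with
        | nil => rfl
        | cons a l ih => exact congrArg (fun t => f a.1 :: t) ih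
      exact h5 c'
    · exact (restr_sat hgood φ v).mpr (hN _)

end Pool.Agent.H86.DQ
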